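import Mathlib

/-!
# Mutually Pythagorean pairs of sets
-/

set_option autoImplicit false

namespace Pool.Agent.Lib_MP_bfde15

/-- `(X, Y)` is mutually Pythagorean: `X`, `Y` are sets of positive integers and `x ^ 2 + y ^ 2` is a perfect square for all
`x ∈ X`, `y ∈ Y`. -/
def MPyth (X Y : Set ℕ) : Prop :=
  (∀ x ∈ X, 0 < x) ∧ (∀ y ∈ Y, 0 < y) ∧ ∀ x ∈ X, ∀ y ∈ Y, IsSquare (x ^ 2 + y ^ 2)

end Pool.Agent.Lib_MP_bfde15
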