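import Pool.Agent.Lib_MP_bfde15.Defs

/-!
# Determinants of hypotenuses for mutually Pythagorean sets

`MPyth X Y`: `X`, `Y` are sets of positive integers and `x ^ 2 + y ^ 2` is a square for all `x ∈ X`, `y ∈ Y`.
The hypotenuses `z i j` of finitely many `x i ∈ X ∪ {0}`, `y j ∈ Y ∪ {0}` form an integer matrix. The determinant of
`z (i, j) - z (0, j)` (`one_sided`), or of `z (i, j) - z (0, j) - z (i, 0) + z (0, 0)` (`two_sided`), is not zero
(Rolle and the Chebyshev property of the functions `(u + v) ^ s`) and it is small (Newton divided differences).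
Consequences: `window`, `short`, `box`, `concentration`, `sparse`.
-/

set_option autoImplicit false
set_option linter.unusedVariables false

open Finset

namespace Pool.Agent.Lib_MP_bfde15

/-! ### Rolle -/

lemma rolle {n : ℕ} {F F' : ℝ → ℝ} {α : ℝ} (w : Fin (n + 1) → ℝ) (hw : StrictMono w) (hα : α ≤ w 0)
    (hF : ∀ t, α ≤ t → HasDerivAt F (F' t) t) (h0 : ∀ i, F (w i) = 0) :
    ∃ w' : Fin n → ℝ, StrictMono w' ∧ (∀ i, w 0 < w' i) ∧ ∀ i, F' (w' i) = 0 := by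
  have hge : ∀ i, α ≤ w i := fun i => hα.trans (hw.monotone (Fin.zero_le i))
  have h : ∀ i : Fin n, ∃ c, c ∈ Set.Ioo (w i.castSucc) (w i.succ) ∧ F' c = 0 := by
    intro i
    obtain ⟨c, hc, hc0⟩ := exists_hasDerivAt_eq_zero (f := F) (f' := F')
      (hw (Fin.castSucc_lt_succ (i := i)))
      (fun t ht => (hF t ((hge _).trans ht.1)).continuousAt.continuousWithinAt)
      (by rw [h0, h0]) (fun t ht => hF t ((hge _).trans ht.1.le))
    exact ⟨c, hc, hc0⟩
  choose w' hw' h' using h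
  refine ⟨w', fun i j hij => ?_, fun i => ?_, h'⟩
  · have h1 : i.succ ≤ j.castSucc := by
      rw [Fin.le_def]
      simpa using hij
    exact (hw' i).2.trans_le ((hw.monotone h1).trans (hw' j).1.le)
  · exact (hw.monotone (Fin.zero_le _)).trans_lt (hw' i).1

/-- mean value form of the leading coefficient of an interpolating polynomial -/
lemma mean (n : ℕ) : ∀ (φ : ℕ → ℝ → ℝ) (α : ℝ) (_ : ∀ m t, α ≤ t → HasDerivAt (φ m) (φ (m + 1) t) t)
    (P : Polynomial ℝ) (w : Fin (n + 1) → ℝ) (_ : StrictMono w) (_ : α ≤ w 0)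
    (_ : ∀ i, φ 0 (w i) = P.eval (w i)) (_ : P.natDegree ≤ n),
    ∃ ξ, w 0 ≤ ξ ∧ φ n ξ = n.factorial * P.coeff n := by
  induction n with
  | zero =>
    intro φ α hφ P w hw hα h0 hP
    refine ⟨w 0, le_rfl, ?_⟩
    rw [h0, Polynomial.eq_C_of_natDegree_le_zero hP]
    simp
  | succ n ih =>
    intro φ α hφ P w hw hα h0 hP
    obtain ⟨w', h1, h2, h3⟩ := rolle (F := fun t => φ 0 t - P.eval t)
      (F' := fun t => φ 1 t - (Polynomial.derivative P).eval t) w hw hα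
      (fun t ht => (hφ 0 t ht).sub (P.hasDerivAt t)) (fun i => by rw [h0]; ring)
    obtain ⟨ξ, h4, h5⟩ := ih (fun m => φ (m + 1)) α (fun m t ht => hφ (m + 1) t ht)
      (Polynomial.derivative P) w' h1 (hα.trans (h2 0).le) (fun i => by
        show φ 1 (w' i) = _
        linarith [h3 i]) ((Polynomial.natDegree_derivative_le P).trans (by omega))
    refine ⟨ξ, (h2 0).le.trans h4, ?_⟩
    rw [h5, Polynomial.coeff_derivative, Nat.factorial_succ]
    push_cast
    ring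

/-! ### Newton divided differences -/

/-- the matrix of the divided differences at the nodes `u 0, .., u a` -/
noncomputable def T {n : ℕ} (u : Fin n → ℝ) (a l : Fin n) : ℝ :=
  if l ≤ a then (∏ m ∈ (Finset.Iic a).erase l, (u l - u m))⁻¹ else 0

lemma T_sum {n : ℕ} (u : Fin n → ℝ) (hu : StrictMono u) (a : Fin n) (φ : ℕ → ℝ → ℝ) (α : ℝ)
    (hφ : ∀ m t, α ≤ t → HasDerivAt (φ m) (φ (m + 1) t) t) (hα : ∀ i, α ≤ u i) :
    ∃ ξ, α ≤ ξ ∧ ∑ l, T u a l * φ 0 (u l) = φ a ξ / (a : ℕ).factorial := by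
  classical
  have hinj : Set.InjOn u (Finset.Iic a : Finset (Fin n)) := hu.injective.injOn
  have hcard : #(Finset.Iic a) = (a : ℕ) + 1 := Fin.card_Iic a
  set P := Lagrange.interpolate (Finset.Iic a) u (fun i => φ 0 (u i)) with hP
  have hdeg : P.degree < #(Finset.Iic a) := Lagrange.degree_interpolate_lt _ hinj
  have hev : ∀ i ∈ Finset.Iic a, P.eval (u i) = φ 0 (u i) := fun i hi =>
    Lagrange.eval_interpolate_at_node _ hinj hi
  have hc := Lagrange.coeff_eq_sum hinj hdeg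
  have hnat : P.natDegree ≤ a := by
    rw [hcard] at hdeg
    refine Polynomial.natDegree_le_iff_coeff_eq_zero.2 fun N hN => ?_
    exact Polynomial.coeff_eq_zero_of_degree_lt (hdeg.trans_le (by exact_mod_cast hN))
  let w : Fin ((a : ℕ) + 1) → ℝ := fun i => u ⟨i, by omega⟩
  have hw : StrictMono w := fun i j hij => hu (Fin.mk_lt_mk.2 hij)
  obtain ⟨ξ, h1, h2⟩ := mean a φ α hφ P w hw (hα _) (fun i => by
    rw [hev]
    rw [Finset.mem_Iic, Fin.le_def]
    exact Nat.lt_succ_iff.1 i.2) hnat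
  refine ⟨ξ, (hα _).trans h1, ?_⟩
  have h3 : ((a : ℕ).factorial : ℝ) ≠ 0 := by exact_mod_cast Nat.factorial_ne_zero _
  rw [h2, mul_div_cancel_left₀ _ h3]
  rw [hcard, Nat.add_sub_cancel] at hc
  rw [hc]
  have h4 : ∀ l, T u a l * φ 0 (u l) = if l ∈ Finset.Iic a then
      P.eval (u l) / ∏ j ∈ (Finset.Iic a).erase l, (u l - u j) else 0 := by
    intro l
    unfold T
    by_cases hl : l ≤ a
    · rw [if_pos hl, if_pos (Finset.mem_Iic.2 hl), hev l (Finset.mem_Iic.2 hl), div_eq_mul_inv, mul_comm]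
    · rw [if_neg hl, if_neg (fun h => hl (Finset.mem_Iic.1 h)), zero_mul]
  rw [Finset.sum_congr rfl fun l _ => h4 l, Finset.sum_ite_mem, Finset.univ_inter]

/-- divided differences of order at least one kill constants -/
lemma T_const {n : ℕ} (u : Fin (n + 1) → ℝ) (hu : StrictMono u) (a : Fin n) (c : ℝ) :
    ∑ l, T u a.succ l * c = 0 := by
  obtain ⟨ξ, -, h⟩ := T_sum u hu a.succ (fun m _ => if m = 0 then c else 0) (u 0) (fun m t _ => by
    simp only [Nat.add_eq_zero_iff, one_ne_zero, and_false, if_false]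
    exact hasDerivAt_const _ _) (fun i => hu.monotone (Fin.zero_le i))
  simpa using h

/-- product of the differences of the nodes -/
def vm {n : ℕ} (u : Fin n → ℝ) : ℝ := ∏ a, ∏ m ∈ Finset.Iio a, (u a - u m)

lemma vm_pos {n : ℕ} (u : Fin n → ℝ) (hu : StrictMono u) : 0 < vm u :=
  Finset.prod_pos fun a _ => Finset.prod_pos fun m hm => sub_pos.2 (hu (Finset.mem_Iio.1 hm))

lemma T_diag {n : ℕ} (u : Fin (n + 1) → ℝ) : ∏ a : Fin n, T u a.succ a.succ = (vm u)⁻¹ := by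
  unfold vm
  have h0 : Finset.Iio (0 : Fin (n + 1)) = ∅ := by
    ext x
    simp
  rw [Fin.prod_univ_succ, h0, Finset.prod_empty, one_mul, ← Finset.prod_inv_distrib]
  refine Finset.prod_congr rfl fun a _ => ?_
  unfold T
  rw [if_pos le_rfl]
  congr 2
  ext x
  simp only [Finset.mem_erase, Finset.mem_Iic, Finset.mem_Iio]
  rw [and_comm, ← lt_iff_le_and_ne]

/-- the reduced matrix of divided differences -/
noncomputable def T' {n : ℕ} (u : Fin (n + 1) → ℝ) : Matrix (Fin n) (Fin n) ℝ :=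
  Matrix.of fun a l => T u a.succ l.succ

lemma det_T' {n : ℕ} (u : Fin (n + 1) → ℝ) : (T' u).det = (vm u)⁻¹ := by
  have h : (T' u).BlockTriangular OrderDual.toDual := by
    intro a l hal
    have h1 : a < l := hal
    show T u a.succ l.succ = 0
    unfold T
    rw [if_neg]
    rw [Fin.succ_le_succ_iff]
    exact not_le.2 h1
  rw [Matrix.det_of_isLowerTriangular _ h, ← T_diag]
  rfl

/-! ### Powers -/

/-- descending product -/
noncomputable def ff (m : ℕ) : ℝ := ∏ i ∈ Finset.range m, ((1 : ℝ) / 2 - i)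

lemma ff_abs (m : ℕ) : |ff (m + 1)| ≤ m.factorial / 2 := by
  induction m with
  | zero => norm_num [ff]
  | succ m ih =>
    unfold ff at ih ⊢
    rw [Finset.prod_range_succ, abs_mul]
    have h1 : |(1 : ℝ) / 2 - ((m + 1 : ℕ) : ℝ)| ≤ (m : ℝ) + 1 := by
      rw [abs_le]
      push_cast
      constructor <;> nlinarith [(Nat.cast_nonneg m : (0 : ℝ) ≤ m)]
    calc _ ≤ (m.factorial / 2 : ℝ) * ((m : ℝ) + 1) := mul_le_mul ih h1 (abs_nonneg _) (by positivity)
      _ = ((m + 1).factorial : ℝ) / 2 := by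
        rw [Nat.factorial_succ]
        push_cast
        ring

/-- derivatives of the square root -/
noncomputable def ph (m : ℕ) (t : ℝ) : ℝ := ff m * t ^ ((1 : ℝ) / 2 - m)

lemma ph_deriv (m : ℕ) (t : ℝ) (ht : 0 < t) : HasDerivAt (ph m) (ph (m + 1) t) t := by
  have h := (Real.hasDerivAt_rpow_const (x := t) (p := (1 : ℝ) / 2 - m) (Or.inl ht.ne')).const_mul (ff m)
  have e : ph (m + 1) t = ff m * (((1 : ℝ) / 2 - m) * t ^ ((1 : ℝ) / 2 - m - 1)) := by
    unfold ph ff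
    rw [Finset.prod_range_succ]
    push_cast
    rw [sub_sub]
    ring
  rw [e]
  exact h

lemma ph_zero (t : ℝ) : ph 0 t = Real.sqrt t := by
  unfold ph ff
  rw [Real.sqrt_eq_rpow]
  simp

lemma ph_abs (m : ℕ) (q t : ℝ) (hq : 0 < q) (h : q ^ 2 ≤ t) :
    |ph (m + 1) t| ≤ m.factorial / 2 * (q ^ (2 * m + 1))⁻¹ := by
  have ht : 0 < t := lt_of_lt_of_le (by positivity) h
  unfold ph
  rw [abs_mul, abs_of_pos (Real.rpow_pos_of_pos ht _)]
  refine mul_le_mul (ff_abs m) ?_ (Real.rpow_pos_of_pos ht _).le (by positivity)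
  have hexp : (1 : ℝ) / 2 - ((m + 1 : ℕ) : ℝ) ≤ 0 := by
    push_cast
    nlinarith [(Nat.cast_nonneg m : (0 : ℝ) ≤ m)]
  refine (Real.rpow_le_rpow_of_nonpos (by positivity) h hexp).trans (le_of_eq ?_)
  rw [← Real.rpow_natCast q 2, ← Real.rpow_mul hq.le, ← Real.rpow_natCast q (2 * m + 1),
    ← Real.rpow_neg hq.le]
  congr 1
  push_cast
  ring

/-- the functions `(1 + v w) ^ s`, `s < 0`, form a Chebyshev system on `w ≥ 0` -/
lemma cheb : ∀ (n : ℕ) (s : ℝ), s < 0 → ∀ (v : Fin n → ℝ), Function.Injective v → (∀ j, 0 ≤ v j) →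
    ∀ (c : Fin n → ℝ) (w : Fin n → ℝ), StrictMono w → (∀ i, 0 ≤ w i) →
    (∀ i, ∑ j, c j * (1 + v j * w i) ^ s = 0) → ∀ j, c j = 0 := by
  intro n
  induction n with
  | zero =>
    intro s hs v hv hv0 c w hw hw0 h j
    exact j.elim0
  | succ n ih =>
    intro s hs v hv hv0 c w hw hw0 h
    set b := v (Fin.last n) with hb
    have hb0 : 0 ≤ b := hv0 _
    have hpos : ∀ j, ∀ t : ℝ, 0 ≤ t → 0 < 1 + v j * t := fun j t ht => by
      have := mul_nonneg (hv0 j) ht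
      linarith
    have hposb : ∀ t : ℝ, 0 ≤ t → 0 < 1 + b * t := hpos _
    have hder : ∀ t : ℝ, 0 ≤ t → HasDerivAt (fun t => ∑ j, c j * ((1 + v j * t) ^ s * (1 + b * t) ^ (-s)))
        (∑ j, c j * (s * (v j - b) * ((1 + v j * t) ^ (s - 1) * (1 + b * t) ^ (-s - 1)))) t := by
      intro t ht
      refine HasDerivAt.fun_sum fun j _ => HasDerivAt.const_mul _ ?_
      have h1 : HasDerivAt (fun t : ℝ => 1 + v j * t) (v j) t := by
        simpa using ((hasDerivAt_id t).const_mul (v j)).const_add 1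
      have h2 : HasDerivAt (fun t : ℝ => 1 + b * t) b t := by
        simpa using ((hasDerivAt_id t).const_mul b).const_add 1
      have h3 := h1.rpow_const (p := s) (Or.inl (hpos j t ht).ne')
      have h4 := h2.rpow_const (p := -s) (Or.inl (hposb t ht).ne')
      have h5 := h3.mul h4
      refine h5.congr_deriv ?_
      have e1 : (1 + v j * t) ^ s = (1 + v j * t) ^ (s - 1) * (1 + v j * t) := by
        rw [Real.rpow_sub_one (hpos j t ht).ne', div_mul_cancel₀ _ (hpos j t ht).ne']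
      have e2 : (1 + b * t) ^ (-s) = (1 + b * t) ^ (-s - 1) * (1 + b * t) := by
        rw [Real.rpow_sub_one (hposb t ht).ne', div_mul_cancel₀ _ (hposb t ht).ne']
      rw [e1, e2]
      ring
    obtain ⟨w', h1, h2, h3⟩ := rolle w hw (hw0 0) hder (fun i => by
      have h4 := h i
      have h5 : ∀ j, c j * ((1 + v j * w i) ^ s * (1 + b * w i) ^ (-s)) =
          c j * (1 + v j * w i) ^ s * (1 + b * w i) ^ (-s) := fun j => by ring
      rw [Finset.sum_congr rfl fun j _ => h5 j, ← Finset.sum_mul, h4, zero_mul])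
    have hw'0 : ∀ i, 0 ≤ w' i := fun i => (hw0 0).trans (h2 i).le
    have key := ih (s - 1) (by linarith) (fun j => v j.castSucc)
      (fun i j hij => Fin.castSucc_injective _ (hv hij)) (fun j => hv0 _)
      (fun j => c j.castSucc * (v j.castSucc - b)) w' h1 hw'0 (fun i => by
        have h4 := h3 i
        rw [Fin.sum_univ_castSucc] at h4
        rw [← hb, sub_self, mul_zero, zero_mul, mul_zero, add_zero] at h4
        have h5 : ∀ j : Fin n, c j.castSucc * (s * (v j.castSucc - b) *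
            ((1 + v j.castSucc * w' i) ^ (s - 1) * (1 + b * w' i) ^ (-s - 1))) =
            c j.castSucc * (v j.castSucc - b) * (1 + v j.castSucc * w' i) ^ (s - 1) *
            (s * (1 + b * w' i) ^ (-s - 1)) := fun j => by ring
        rw [Finset.sum_congr rfl fun j _ => h5 j, ← Finset.sum_mul] at h4
        refine (mul_eq_zero.1 h4).resolve_right ?_
        exact mul_ne_zero hs.ne (Real.rpow_pos_of_pos (hposb _ (hw'0 i)) _).ne')
    have hc : ∀ j : Fin n, c j.castSucc = 0 := by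
      intro j
      refine (mul_eq_zero.1 (key j)).resolve_right ?_
      refine sub_ne_zero.2 ?_
      rw [hb]
      exact fun h' => (Fin.castSucc_lt_last j).ne (hv h')
    intro j
    refine Fin.lastCases ?_ hc j
    have h6 := h 0
    rw [Fin.sum_univ_castSucc] at h6
    have h7 : ∀ j : Fin n, c j.castSucc * (1 + v j.castSucc * w 0) ^ s = 0 := fun j => by
      rw [hc, zero_mul]
    rw [Finset.sum_congr rfl fun j _ => h7 j, Finset.sum_const_zero, zero_add] at h6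
    exact (mul_eq_zero.1 h6).resolve_right (Real.rpow_pos_of_pos (hpos _ _ (hw0 0)) _).ne'

lemma ph_inv (u v : ℝ) (hu : 0 < u) (hv : 0 ≤ v) :
    ph 1 (u + v) = (1 + v * u⁻¹) ^ (-(1 / 2) : ℝ) * (1 / 2 * u ^ (-(1 / 2) : ℝ)) := by
  have e : u + v = u * (1 + v * u⁻¹) := by
    field_simp
  have h1 : 0 ≤ 1 + v * u⁻¹ := by positivity
  unfold ph
  rw [e, Real.mul_rpow hu.le h1]
  have e2 : (1 : ℝ) / 2 - ((1 : ℕ) : ℝ) = -(1 / 2) := by norm_num
  have e3 : ff 1 = 1 / 2 := by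
    unfold ff
    simp
  rw [e2, e3]
  ring

lemma sum_inv {n : ℕ} (v c : Fin n → ℝ) (hv0 : ∀ j, 0 ≤ v j) (u : ℝ) (hu : 0 < u)
    (h : ∑ j, c j * ph 1 (u + v j) = 0) : ∑ j, c j * (1 + v j * u⁻¹) ^ (-(1 / 2) : ℝ) = 0 := by
  have h1 : ∀ j, c j * ph 1 (u + v j) =
      c j * (1 + v j * u⁻¹) ^ (-(1 / 2) : ℝ) * (1 / 2 * u ^ (-(1 / 2) : ℝ)) := fun j => by
    rw [ph_inv u (v j) hu (hv0 j)]
    ring
  rw [Finset.sum_congr rfl fun j _ => h1 j, ← Finset.sum_mul] at h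
  refine (mul_eq_zero.1 h).resolve_right ?_
  have := Real.rpow_pos_of_pos hu (-(1 / 2))
  positivity

/-- the same for the functions `(u + v) ^ (-1/2)` on `u > 0` -/
lemma cheb_inv (n : ℕ) (v : Fin n → ℝ) (hv : Function.Injective v) (hv0 : ∀ j, 0 ≤ v j) (c : Fin n → ℝ)
    (u : Fin n → ℝ) (hu : StrictMono u) (hu0 : ∀ i, 0 < u i) (h : ∀ i, ∑ j, c j * ph 1 (u i + v j) = 0) :
    ∀ j, c j = 0 := by
  refine cheb n (-(1 / 2)) (by norm_num) v hv hv0 c (fun i => (u (Fin.rev i))⁻¹) (fun i j hij => ?_)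
    (fun i => inv_nonneg.2 (hu0 _).le) (fun i => sum_inv v c hv0 _ (hu0 _) (h _))
  exact inv_strictAnti₀ (hu0 _) (hu (Fin.rev_lt_rev.2 hij))

/-- with one more zero at infinity -/
lemma cheb_inv' (n : ℕ) (v : Fin (n + 1) → ℝ) (hv : Function.Injective v) (hv0 : ∀ j, 0 ≤ v j)
    (c : Fin (n + 1) → ℝ) (hc : ∑ j, c j = 0) (u : Fin n → ℝ) (hu : StrictMono u) (hu0 : ∀ i, 0 < u i)
    (h : ∀ i, ∑ j, c j * ph 1 (u i + v j) = 0) : ∀ j, c j = 0 := by
  refine cheb (n + 1) (-(1 / 2)) (by norm_num) v hv hv0 c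
    (Fin.cons 0 (fun i => (u (Fin.rev i))⁻¹)) (fun i j hij => ?_) (fun i => ?_) (fun i => ?_)
  · cases j using Fin.cases with
    | zero => exact absurd hij (not_lt.2 (Fin.zero_le i))
    | succ j =>
      rw [Fin.cons_succ]
      cases i using Fin.cases with
      | zero =>
        rw [Fin.cons_zero]
        exact inv_pos.2 (hu0 _)
      | succ i =>
        rw [Fin.cons_succ]
        exact inv_strictAnti₀ (hu0 _) (hu (Fin.rev_lt_rev.2 (Fin.succ_lt_succ_iff.1 hij)))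
  · cases i using Fin.cases with
    | zero => simp
    | succ i =>
      rw [Fin.cons_succ]
      exact inv_nonneg.2 (hu0 _).le
  · cases i using Fin.cases with
    | zero =>
      simp only [Fin.cons_zero, mul_zero, add_zero, Real.one_rpow, mul_one]
      exact hc
    | succ i =>
      simp only [Fin.cons_succ]
      exact sum_inv v c hv0 _ (hu0 _) (h _)

/-! ### Bounds for determinants -/

lemma det_bound {n : ℕ} (G : Matrix (Fin n) (Fin n) ℝ) (C : ℝ)
    (h : ∀ σ : Equiv.Perm (Fin n), ∏ i, |G (σ i) i| ≤ C) : |G.det| ≤ n.factorial * C := by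
  rw [Matrix.det_apply]
  refine (Finset.abs_sum_le_sum_abs _ _).trans ?_
  calc ∑ σ : Equiv.Perm (Fin n), |Equiv.Perm.sign σ • ∏ i, G (σ i) i|
      ≤ ∑ _σ : Equiv.Perm (Fin n), C := Finset.sum_le_sum fun σ _ => by
        refine le_trans (le_of_eq ?_) (h σ)
        rcases Int.units_eq_one_or (Equiv.Perm.sign σ) with h1 | h1 <;> rw [h1] <;>
          simp [Finset.abs_prod]
    _ = n.factorial * C := by
      rw [Finset.sum_const, Finset.card_univ, Fintype.card_perm, Fintype.card_fin, nsmul_eq_mul]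

lemma rearr {n : ℕ} (q : Fin n → ℝ) (hq : ∀ i, 0 < q i) (hm : Monotone q) (σ : Equiv.Perm (Fin n)) :
    ∏ i, q i ^ (2 * (Fin.rev i : ℕ) + 1) ≤ ∏ i, q i ^ (2 * (σ i : ℕ) + 1) := by
  have h1 : ∀ e : Fin n → ℕ, 0 < ∏ i, q i ^ e i := fun e => Finset.prod_pos fun i _ => pow_pos (hq i) _
  rw [← Real.log_le_log_iff (h1 _) (h1 _), Real.log_prod fun i _ => (pow_pos (hq i) _).ne',
    Real.log_prod fun i _ => (pow_pos (hq i) _).ne']
  simp only [Real.log_pow]
  have h2 : Antivary (fun i : Fin n => ((2 * (Fin.rev i : ℕ) + 1 : ℕ) : ℝ)) (fun i => Real.log (q i)) := by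
    refine Antitone.antivary ?_ ?_
    · intro i j hij
      have h3 : (Fin.rev j : ℕ) ≤ (Fin.rev i : ℕ) := Fin.rev_le_rev.2 hij
      show ((2 * (Fin.rev j : ℕ) + 1 : ℕ) : ℝ) ≤ ((2 * (Fin.rev i : ℕ) + 1 : ℕ) : ℝ)
      exact_mod_cast (by omega : 2 * (Fin.rev j : ℕ) + 1 ≤ 2 * (Fin.rev i : ℕ) + 1)
    · intro i j hij
      exact Real.log_le_log (hq i) (hm hij)
  have h3 := h2.sum_mul_le_sum_comp_perm_mul (σ := σ.trans Fin.revPerm)
  simpa using h3

/-! ### The one-sided determinant -/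

section one
variable {n : ℕ} (u : Fin (n + 1) → ℝ) (v : Fin n → ℝ)

/-- the matrix of the differences of the hypotenuses -/
noncomputable def H : Matrix (Fin n) (Fin n) ℝ :=
  Matrix.of fun a j => Real.sqrt (u a.succ + v j) - Real.sqrt (u 0 + v j)

lemma shift_deriv (v t : ℝ) (m : ℕ) (h : 0 < t + v) :
    HasDerivAt (fun t => ph m (t + v)) (ph (m + 1) (t + v)) t := (ph_deriv m (t + v) h).comp_add_const t v

lemma T_H (hu : StrictMono u) (a j : Fin n) :
    (T' u * H u v) a j = ∑ l, T u a.succ l * ph 0 (u l + v j) := by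
  rw [Matrix.mul_apply]
  have h1 := T_const u hu a (ph 0 (u 0 + v j))
  have h2 : ∑ l, T u a.succ l * ph 0 (u l + v j) =
      ∑ l, T u a.succ l * (ph 0 (u l + v j) - ph 0 (u 0 + v j)) := by
    have h3 : ∀ l, T u a.succ l * (ph 0 (u l + v j) - ph 0 (u 0 + v j)) =
        T u a.succ l * ph 0 (u l + v j) - T u a.succ l * ph 0 (u 0 + v j) := fun l => by ring
    rw [Finset.sum_congr rfl fun l _ => h3 l, Finset.sum_sub_distrib, h1, sub_zero]
  rw [h2, Fin.sum_univ_succ, sub_self, mul_zero, zero_add]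
  refine Finset.sum_congr rfl fun l _ => ?_
  rw [ph_zero, ph_zero]
  rfl

variable (q : Fin n → ℝ) (hu : StrictMono u) (hu0 : 0 ≤ u 0) (hv : StrictMono v) (hv0 : ∀ j, 0 ≤ v j)
  (hq : ∀ j, 0 < q j) (hq2 : ∀ j, q j ^ 2 = u 0 + v j)

include hu hq hq2 in
lemma T_H_abs (a j : Fin n) : |(T' u * H u v) a j| ≤ (2 * ((a : ℝ) + 1))⁻¹ * (q j ^ (2 * (a : ℕ) + 1))⁻¹ := by
  have hpos : ∀ t, u 0 ≤ t → q j ^ 2 ≤ t + v j := fun t ht => by
    rw [hq2]
    linarith
  obtain ⟨ξ, h1, h2⟩ := T_sum u hu a.succ (fun m t => ph m (t + v j)) (u 0)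
    (fun m t ht => shift_deriv (v j) t m (lt_of_lt_of_le (pow_pos (hq j) 2) (hpos t ht)))
    (fun i => hu.monotone (Fin.zero_le i))
  rw [T_H u v hu, h2, abs_div]
  have h3 := ph_abs a (q j) (ξ + v j) (hq j) (hpos ξ h1)
  have h4 : (0 : ℝ) < ((a.succ : ℕ).factorial : ℝ) := by exact_mod_cast Nat.factorial_pos _
  rw [abs_of_pos h4, div_le_iff₀ h4]
  have h5 : ((a.succ : ℕ).factorial : ℝ) = ((a : ℝ) + 1) * (a : ℕ).factorial := by
    rw [Fin.val_succ, Nat.factorial_succ]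
    push_cast
    ring
  have h6 : (0 : ℝ) < (a : ℝ) + 1 := by positivity
  refine h3.trans (le_of_eq ?_)
  rw [h5]
  field_simp

include hu hv hq hq2 in
lemma one_upper : 2 ^ n * (∏ i, q i ^ (2 * (Fin.rev i : ℕ) + 1)) * |(H u v).det| ≤ vm u := by
  have hm : Monotone q := fun i j hij => by
    refine le_of_sq_le_sq ?_ (hq j).le
    rw [hq2, hq2]
    have := hv.monotone hij
    linarith
  have h1 : |(T' u * H u v).det| ≤ n.factorial * ((2 ^ n * n.factorial : ℝ)⁻¹ *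
      (∏ i, q i ^ (2 * (Fin.rev i : ℕ) + 1))⁻¹) := by
    refine det_bound _ _ fun σ => ?_
    calc ∏ i, |(T' u * H u v) (σ i) i|
        ≤ ∏ i, ((2 * (((σ i : Fin n) : ℝ) + 1))⁻¹ * (q i ^ (2 * (σ i : ℕ) + 1))⁻¹) :=
          Finset.prod_le_prod (fun i _ => abs_nonneg _) fun i _ => T_H_abs u v q hu hq hq2 (σ i) i
      _ = (∏ i, (2 * (((σ i : Fin n) : ℝ) + 1))⁻¹) * (∏ i, q i ^ (2 * (σ i : ℕ) + 1))⁻¹ := by
          rw [Finset.prod_mul_distrib, Finset.prod_inv_distrib (f := fun i => q i ^ (2 * (σ i : ℕ) + 1))]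
      _ = (2 ^ n * n.factorial : ℝ)⁻¹ * (∏ i, q i ^ (2 * (σ i : ℕ) + 1))⁻¹ := by
          congr 1
          rw [Finset.prod_inv_distrib, Equiv.prod_comp σ (fun i : Fin n => 2 * ((i : ℝ) + 1)),
            Finset.prod_mul_distrib, Finset.prod_const, Finset.card_univ, Fintype.card_fin]
          congr 2
          rw [← Finset.prod_range_add_one_eq_factorial, ← Fin.prod_univ_eq_prod_range]
          push_cast
          rfl
      _ ≤ _ := by
          refine mul_le_mul_of_nonneg_left ?_ (by positivity)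
          exact inv_anti₀ (Finset.prod_pos fun i _ => pow_pos (hq i) _) (rearr q hq hm σ)
  rw [Matrix.det_mul, det_T', abs_mul, abs_of_pos (inv_pos.2 (vm_pos u hu))] at h1
  have h2 := vm_pos u hu
  have h3 : (0 : ℝ) < n.factorial := by exact_mod_cast Nat.factorial_pos _
  have h4 : 0 < ∏ i, q i ^ (2 * (Fin.rev i : ℕ) + 1) := Finset.prod_pos fun i _ => pow_pos (hq i) _
  have h5 : |(H u v).det| ≤ vm u * ((2 ^ n)⁻¹ * (∏ i, q i ^ (2 * (Fin.rev i : ℕ) + 1))⁻¹) := by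
    rw [inv_mul_le_iff₀ h2] at h1
    refine h1.trans (le_of_eq ?_)
    field_simp
  calc 2 ^ n * (∏ i, q i ^ (2 * (Fin.rev i : ℕ) + 1)) * |(H u v).det|
      ≤ 2 ^ n * (∏ i, q i ^ (2 * (Fin.rev i : ℕ) + 1)) *
        (vm u * ((2 ^ n)⁻¹ * (∏ i, q i ^ (2 * (Fin.rev i : ℕ) + 1))⁻¹)) := by gcongr
    _ = vm u := by field_simp

include hu hu0 hv hv0 hq hq2 in
lemma one_ne : (H u v).det ≠ 0 := by
  intro h0
  obtain ⟨c, hc, hc0⟩ := Matrix.exists_mulVec_eq_zero_iff.2 h0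
  have hpos : ∀ j t, u 0 ≤ t → 0 < t + v j := fun j t ht => by
    have := pow_pos (hq j) 2
    rw [hq2] at this
    linarith
  have hz : ∀ a, ∑ j, c j * (ph 0 (u a + v j) - ph 0 (u 0 + v j)) = 0 := by
    intro a
    cases a using Fin.cases with
    | zero => simp
    | succ a =>
      have := congrFun hc0 a
      rw [Matrix.mulVec, dotProduct] at this
      refine Eq.trans ?_ this
      refine Finset.sum_congr rfl fun j _ => ?_
      rw [ph_zero, ph_zero, mul_comm]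
      rfl
  obtain ⟨w, h1, h2, h3⟩ := rolle (F := fun t => ∑ j, c j * (ph 0 (t + v j) - ph 0 (u 0 + v j)))
    (F' := fun t => ∑ j, c j * ph 1 (t + v j)) u hu le_rfl (fun t ht =>
      HasDerivAt.fun_sum fun j _ => ((shift_deriv (v j) t 0 (hpos j t ht)).sub_const _).const_mul _) hz
  exact hc (funext (cheb_inv n v hv.injective hv0 c w h1 (fun i => lt_of_le_of_lt hu0 (h2 i)) h3))

end one

/-! ### The two-sided determinant -/

section two
variable {n : ℕ} (u v : Fin (n + 1) → ℝ)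

/-- the matrix of the mixed differences of the hypotenuses -/
noncomputable def H2 : Matrix (Fin n) (Fin n) ℝ :=
  Matrix.of fun a b => Real.sqrt (u a.succ + v b.succ) - Real.sqrt (u 0 + v b.succ) -
    (Real.sqrt (u a.succ + v 0) - Real.sqrt (u 0 + v 0))

lemma T_shift (hu : StrictMono u) (f : Fin (n + 1) → ℝ) (a : Fin n) :
    ∑ l : Fin n, T u a.succ l.succ * (f l.succ - f 0) = ∑ l, T u a.succ l * f l := by
  have h1 := T_const u hu a (f 0)
  have h2 : ∑ l, T u a.succ l * f l = ∑ l, T u a.succ l * (f l - f 0) := by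
    have h3 : ∀ l, T u a.succ l * (f l - f 0) = T u a.succ l * f l - T u a.succ l * f 0 := fun l => by ring
    rw [Finset.sum_congr rfl fun l _ => h3 l, Finset.sum_sub_distrib, h1, sub_zero]
  rw [h2, Fin.sum_univ_succ, sub_self, mul_zero, zero_add]

lemma T_H2 (hu : StrictMono u) (hv : StrictMono v) (a b : Fin n) :
    (T' u * H2 u v * (T' v).transpose) a b =
      ∑ m, T v b.succ m * ∑ l, T u a.succ l * ph 0 (u l + v m) := by
  rw [← T_shift v hv (fun m => ∑ l, T u a.succ l * ph 0 (u l + v m)) b, Matrix.mul_apply]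
  refine Finset.sum_congr rfl fun m _ => ?_
  rw [Matrix.transpose_apply, mul_comm]
  show T v b.succ m.succ * _ = _
  congr 1
  rw [← Finset.sum_sub_distrib, Matrix.mul_apply]
  have h1 : ∀ l, T u a.succ l * ph 0 (u l + v m.succ) - T u a.succ l * ph 0 (u l + v 0) =
      T u a.succ l * (ph 0 (u l + v m.succ) - ph 0 (u l + v 0)) := fun l => by ring
  rw [Finset.sum_congr rfl fun l _ => h1 l,
    ← T_shift u hu (fun l => ph 0 (u l + v m.succ) - ph 0 (u l + v 0)) a]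
  refine Finset.sum_congr rfl fun l _ => ?_
  show T u a.succ l.succ * _ = _
  congr 1
  simp only [ph_zero]
  show Real.sqrt (u l.succ + v m.succ) - Real.sqrt (u 0 + v m.succ) -
    (Real.sqrt (u l.succ + v 0) - Real.sqrt (u 0 + v 0)) = _
  ring

variable (q : ℝ) (hu : StrictMono u) (hu0 : 0 ≤ u 0) (hv : StrictMono v) (hv0 : 0 ≤ v 0) (hq : 0 < q)
  (hq2 : q ^ 2 = u 0 + v 0)

include hu hv hq hq2 in
lemma T_H2_abs (a b : Fin n) : |(T' u * H2 u v * (T' v).transpose) a b| ≤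
    2 ^ ((a : ℕ) + b) * (q ^ (2 * ((a : ℕ) + b) + 3))⁻¹ := by
  have hpos : ∀ s t, u 0 ≤ s → v 0 ≤ t → q ^ 2 ≤ s + t := fun s t hs ht => by
    rw [hq2]
    linarith
  have hq2pos := pow_pos hq 2
  obtain ⟨η, h1, h2⟩ := T_sum v hv b.succ (fun r t => ∑ l, T u a.succ l * ph r (u l + t)) (v 0)
    (fun r t ht => by
      refine HasDerivAt.fun_sum fun l _ => HasDerivAt.const_mul _ ?_
      have h := shift_deriv (u l) t r (by
        have := hpos (u l) t (hu.monotone (Fin.zero_le l)) ht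
        linarith)
      have e : ∀ s, u l + s = s + u l := fun s => add_comm _ _
      simp only [e]
      exact h)
    (fun i => hv.monotone (Fin.zero_le i))
  obtain ⟨ξ, h3, h4⟩ := T_sum u hu a.succ (fun m t => ph (m + (b.succ : ℕ)) (t + η)) (u 0)
    (fun m t ht => by
      have h := shift_deriv η t (m + (b.succ : ℕ)) (lt_of_lt_of_le hq2pos (hpos t η ht h1))
      have e : m + 1 + (b.succ : ℕ) = m + (b.succ : ℕ) + 1 := by omega
      rw [e]
      exact h)
    (fun i => hu.monotone (Fin.zero_le i))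
  have h5 : (T' u * H2 u v * (T' v).transpose) a b =
      ph ((a.succ : ℕ) + (b.succ : ℕ)) (ξ + η) / (a.succ : ℕ).factorial / (b.succ : ℕ).factorial := by
    rw [T_H2 u v hu hv, h2, ← h4]
    simp only [zero_add]
  have e6 : (a.succ : ℕ) + (b.succ : ℕ) = ((a : ℕ) + b + 1) + 1 := by
    rw [Fin.val_succ, Fin.val_succ]
    omega
  have h6 := ph_abs ((a : ℕ) + b + 1) q (ξ + η) hq (hpos ξ η h3 h1)
  rw [h5, e6, abs_div, abs_div, Nat.abs_cast, Nat.abs_cast]
  have hf1 : (0 : ℝ) < ((a.succ : ℕ).factorial : ℝ) := by exact_mod_cast Nat.factorial_pos _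
  have hf2 : (0 : ℝ) < ((b.succ : ℕ).factorial : ℝ) := by exact_mod_cast Nat.factorial_pos _
  rw [div_div, div_le_iff₀ (mul_pos hf1 hf2)]
  refine h6.trans ?_
  have e7 : 2 * ((a : ℕ) + b + 1) + 1 = 2 * ((a : ℕ) + b) + 3 := by ring
  rw [e7]
  have hX : 0 < (q ^ (2 * ((a : ℕ) + b) + 3))⁻¹ := inv_pos.2 (pow_pos hq _)
  have key : (((a : ℕ) + b + 1).factorial : ℝ) / 2 ≤
      2 ^ ((a : ℕ) + b) * ((a.succ : ℕ).factorial * (b.succ : ℕ).factorial) := by
    have k1 : ((a : ℕ) + b + 1 + 1).factorial =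
        ((a : ℕ) + b + 1 + 1).choose ((a : ℕ) + 1) * (((a : ℕ) + 1).factorial * ((b : ℕ) + 1).factorial) := by
      have := Nat.choose_mul_factorial_mul_factorial (n := (a : ℕ) + b + 1 + 1) (k := (a : ℕ) + 1) (by omega)
      have e8 : (a : ℕ) + b + 1 + 1 - ((a : ℕ) + 1) = (b : ℕ) + 1 := by omega
      rw [e8] at this
      rw [← this, mul_assoc]
    have k2 : ((a : ℕ) + b + 1 + 1).choose ((a : ℕ) + 1) ≤ 2 ^ ((a : ℕ) + b + 1 + 1) := Nat.choose_le_two_pow _ _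
    have k3 : 2 * ((a : ℕ) + b + 1).factorial ≤ ((a : ℕ) + b + 1 + 1).factorial := by
      rw [Nat.factorial_succ ((a : ℕ) + b + 1)]
      exact Nat.mul_le_mul_right _ (by omega)
    have k4 : 2 * ((a : ℕ) + b + 1).factorial ≤
        2 ^ ((a : ℕ) + b + 1 + 1) * (((a : ℕ) + 1).factorial * ((b : ℕ) + 1).factorial) :=
      k3.trans (k1.le.trans (Nat.mul_le_mul_right _ k2))
    have k5 : (2 * (((a : ℕ) + b + 1).factorial : ℝ)) ≤
        2 ^ ((a : ℕ) + b + 1 + 1) * ((((a : ℕ) + 1).factorial : ℝ) * (((b : ℕ) + 1).factorial : ℝ)) := by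
      exact_mod_cast k4
    rw [Fin.val_succ, Fin.val_succ]
    rw [pow_succ, pow_succ] at k5
    linarith
  calc (((a : ℕ) + b + 1).factorial : ℝ) / 2 * (q ^ (2 * ((a : ℕ) + b) + 3))⁻¹
      ≤ (2 ^ ((a : ℕ) + b) * ((a.succ : ℕ).factorial * (b.succ : ℕ).factorial)) *
        (q ^ (2 * ((a : ℕ) + b) + 3))⁻¹ := mul_le_mul_of_nonneg_right key hX.le
    _ = _ := by ring

include hu hv hq hq2 in
lemma two_upper : q ^ (n * (2 * n + 1)) * |(H2 u v).det| ≤ n.factorial * 2 ^ (n * (n - 1)) * (vm u * vm v) := by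
  have hsum : ∀ σ : Equiv.Perm (Fin n), ∑ i, (((σ i : Fin n) : ℕ) + (i : ℕ)) = n * (n - 1) := by
    intro σ
    rw [Finset.sum_add_distrib, Equiv.sum_comp σ (fun i : Fin n => (i : ℕ)), ← two_mul,
      Fin.sum_univ_eq_sum_range (fun i => i) n, mul_comm 2, Finset.sum_range_id_mul_two]
  have h1 : |(T' u * H2 u v * (T' v).transpose).det| ≤
      n.factorial * (2 ^ (n * (n - 1)) * (q ^ (n * (2 * n + 1)))⁻¹) := by
    refine det_bound _ _ fun σ => ?_
    calc ∏ i, |(T' u * H2 u v * (T' v).transpose) (σ i) i|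
        ≤ ∏ i, (2 ^ (((σ i : Fin n) : ℕ) + (i : ℕ)) * (q ^ (2 * (((σ i : Fin n) : ℕ) + (i : ℕ)) + 3))⁻¹) :=
          Finset.prod_le_prod (fun i _ => abs_nonneg _) fun i _ => T_H2_abs u v q hu hv hq hq2 (σ i) i
      _ = 2 ^ (n * (n - 1)) * (q ^ (n * (2 * n + 1)))⁻¹ := by
          rw [Finset.prod_mul_distrib, Finset.prod_inv_distrib
            (f := fun i => q ^ (2 * (((σ i : Fin n) : ℕ) + (i : ℕ)) + 3)), Finset.prod_pow_eq_pow_sum,
            Finset.prod_pow_eq_pow_sum, hsum, Finset.sum_add_distrib, ← Finset.mul_sum, hsum, Finset.sum_const,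
            Finset.card_univ, Fintype.card_fin, smul_eq_mul]
          congr 3
          cases n with
          | zero => rfl
          | succ n =>
            simp only [Nat.add_sub_cancel]
            ring
  rw [Matrix.det_mul, Matrix.det_mul, Matrix.det_transpose, det_T', det_T', abs_mul, abs_mul,
    abs_of_pos (inv_pos.2 (vm_pos u hu)), abs_of_pos (inv_pos.2 (vm_pos v hv))] at h1
  have h2 := vm_pos u hu
  have h3 := vm_pos v hv
  have h4 : 0 < q ^ (n * (2 * n + 1)) := pow_pos hq _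
  have h5 : |(H2 u v).det| = vm u * vm v * ((vm u)⁻¹ * |(H2 u v).det| * (vm v)⁻¹) := by field_simp
  rw [h5]
  calc q ^ (n * (2 * n + 1)) * (vm u * vm v * ((vm u)⁻¹ * |(H2 u v).det| * (vm v)⁻¹))
      ≤ q ^ (n * (2 * n + 1)) * (vm u * vm v *
        (n.factorial * (2 ^ (n * (n - 1)) * (q ^ (n * (2 * n + 1)))⁻¹))) := by gcongr
    _ = n.factorial * 2 ^ (n * (n - 1)) * (vm u * vm v) := by field_simp

include hu hu0 hv hv0 hq hq2 in
lemma two_ne : (H2 u v).det ≠ 0 := by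
  intro h0
  obtain ⟨c, hc, hc0⟩ := Matrix.exists_mulVec_eq_zero_iff.2 h0
  have hpos : ∀ j t, u 0 ≤ t → 0 < t + v j := fun j t ht => by
    have h1 := pow_pos hq 2
    have h2 := hv.monotone (Fin.zero_le j)
    rw [hq2] at h1
    linarith
  -- coefficients with sum zero
  let d : Fin (n + 1) → ℝ := Fin.cons (-∑ j, c j) c
  have hd : ∑ j, d j = 0 := by
    rw [Fin.sum_univ_succ]
    simp [d]
  have hdsum : ∀ f : Fin (n + 1) → ℝ, ∑ j, d j * f j = ∑ j : Fin n, c j * (f j.succ - f 0) := by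
    intro f
    rw [Fin.sum_univ_succ]
    simp only [d, Fin.cons_zero, Fin.cons_succ, mul_sub, Finset.sum_sub_distrib, ← Finset.sum_mul]
    ring
  have hz : ∀ a, ∑ j, d j * (ph 0 (u a + v j) - ph 0 (u 0 + v j)) = 0 := by
    intro a
    cases a using Fin.cases with
    | zero => simp
    | succ a =>
      have := congrFun hc0 a
      rw [Matrix.mulVec, dotProduct] at this
      rw [hdsum]
      refine Eq.trans ?_ this
      refine Finset.sum_congr rfl fun j _ => ?_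
      simp only [ph_zero]
      rw [mul_comm]
      rfl
  obtain ⟨w, h1, h2, h3⟩ := rolle (F := fun t => ∑ j, d j * (ph 0 (t + v j) - ph 0 (u 0 + v j)))
    (F' := fun t => ∑ j, d j * ph 1 (t + v j)) u hu le_rfl (fun t ht =>
      HasDerivAt.fun_sum fun j _ => ((shift_deriv (v j) t 0 (hpos j t ht)).sub_const _).const_mul _) hz
  have h4 := cheb_inv' n v hv.injective (fun j => hv0.trans (hv.monotone (Fin.zero_le j))) d hd w h1
    (fun i => lt_of_le_of_lt hu0 (h2 i)) h3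
  refine hc (funext fun j => ?_)
  have := h4 j.succ
  simpa [d] using this

end two

/-! ### Mutually Pythagorean pairs -/

/-- product of the differences of the squares -/
def gaps {n : ℕ} (x : Fin n → ℕ) : ℕ := ∏ i, ∏ j ∈ Finset.Iio i, (x i ^ 2 - x j ^ 2)

lemma MPyth.symm {X Y : Set ℕ} (h : MPyth X Y) : MPyth Y X :=
  ⟨h.2.1, h.1, fun y hy x hx => by
    rw [add_comm]
    exact h.2.2 x hx y hy⟩

lemma MPyth.sq {X Y : Set ℕ} (h : MPyth X Y) {x y : ℕ} (hx : x = 0 ∨ x ∈ X) (hy : y = 0 ∨ y ∈ Y) :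
    ∃ s : ℕ, s ^ 2 = x ^ 2 + y ^ 2 := by
  rcases hx with rfl | hx
  · exact ⟨y, by ring⟩
  rcases hy with rfl | hy
  · exact ⟨x, by ring⟩
  · obtain ⟨s, hs⟩ := h.2.2 x hx y hy
    exact ⟨s, by rw [hs]; ring⟩

lemma vm_gaps {n : ℕ} (x : Fin n → ℕ) (hx : StrictMono x) : vm (fun i => (x i : ℝ) ^ 2) = gaps x := by
  unfold vm gaps
  push_cast
  refine Finset.prod_congr rfl fun i _ => Finset.prod_congr rfl fun j hj => ?_
  have h1 : x j ^ 2 ≤ x i ^ 2 := Nat.pow_le_pow_left (hx (Finset.mem_Iio.1 hj)).le 2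
  rw [Nat.cast_sub h1]
  push_cast
  rfl

lemma sqrt_nat {x y s : ℕ} (h : s ^ 2 = x ^ 2 + y ^ 2) : Real.sqrt ((x : ℝ) ^ 2 + (y : ℝ) ^ 2) = s := by
  have h1 : ((x : ℝ) ^ 2 + (y : ℝ) ^ 2) = (s : ℝ) ^ 2 := by exact_mod_cast h.symm
  rw [h1, Real.sqrt_sq (Nat.cast_nonneg s)]

lemma sq_mono {n : ℕ} {x : Fin n → ℕ} (hx : StrictMono x) : StrictMono (fun i => (x i : ℝ) ^ 2) := by
  intro i j hij
  have h1 : (x i : ℝ) < (x j : ℝ) := by exact_mod_cast hx hij
  exact pow_lt_pow_left₀ h1 (Nat.cast_nonneg _) two_ne_zero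

/-- a nonzero determinant of an integer matrix is at least one in absolute value -/
lemma one_le_det {n : ℕ} (M : Matrix (Fin n) (Fin n) ℝ) (N : Matrix (Fin n) (Fin n) ℤ)
    (h : ∀ i j, M i j = (N i j : ℝ)) (h0 : M.det ≠ 0) : 1 ≤ |M.det| := by
  have e : M = N.map (fun x => (x : ℝ)) := by
    ext i j
    rw [h]
    rfl
  have e2 : M.det = (N.det : ℝ) := by rw [e, ← Int.cast_det]
  rw [e2] at h0 ⊢
  have h1 : N.det ≠ 0 := fun h2 => h0 (by rw [h2, Int.cast_zero])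
  have h2 : 1 ≤ |N.det| := Int.one_le_abs h1
  exact_mod_cast h2

variable {X Y : Set ℕ}

/-- one-sided inequality -/
theorem one_sided (h : MPyth X Y) (n : ℕ) (x : Fin (n + 1) → ℕ) (y z : Fin n → ℕ) (hx : StrictMono x)
    (hy : StrictMono y) (hX : ∀ i, x i = 0 ∨ x i ∈ X) (hY : ∀ j, y j = 0 ∨ y j ∈ Y)
    (hz : ∀ j, z j ^ 2 = x 0 ^ 2 + y j ^ 2) (hz0 : ∀ j, 0 < z j) :
    2 ^ n * ∏ j, z j ^ (2 * (n - (j : ℕ)) - 1) ≤ gaps x := by
  have hs : ∀ i j, ∃ s : ℕ, s ^ 2 = x i ^ 2 + y j ^ 2 := fun i j => h.sq (hX i) (hY j)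
  choose s hs using hs
  have hq : ∀ j, (0 : ℝ) < z j := fun j => by exact_mod_cast hz0 j
  have hq2 : ∀ j, (z j : ℝ) ^ 2 = (x 0 : ℝ) ^ 2 + (y j : ℝ) ^ 2 := fun j => by exact_mod_cast hz j
  have hne := one_ne (fun i => (x i : ℝ) ^ 2) (fun j => (y j : ℝ) ^ 2) (fun j => (z j : ℝ)) (sq_mono hx)
    (by positivity) (sq_mono hy) (fun j => by positivity) hq hq2
  have hup := one_upper (fun i => (x i : ℝ) ^ 2) (fun j => (y j : ℝ) ^ 2) (fun j => (z j : ℝ)) (sq_mono hx)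
    (sq_mono hy) hq hq2
  have h1 := one_le_det _ (Matrix.of fun a j => (s a.succ j : ℤ) - (s 0 j : ℤ)) (fun a j => by
    show Real.sqrt ((x a.succ : ℝ) ^ 2 + (y j : ℝ) ^ 2) - Real.sqrt ((x 0 : ℝ) ^ 2 + (y j : ℝ) ^ 2) = _
    rw [sqrt_nat (hs a.succ j), sqrt_nat (hs 0 j)]
    simp) hne
  rw [vm_gaps x hx] at hup
  have h2 : (0 : ℝ) ≤ 2 ^ n * (∏ j, (z j : ℝ) ^ (2 * (Fin.rev j : ℕ) + 1)) := by positivity
  have h3 : 2 ^ n * (∏ j, (z j : ℝ) ^ (2 * (Fin.rev j : ℕ) + 1)) ≤ gaps x := by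
    refine le_trans ?_ hup
    exact le_mul_of_one_le_right h2 h1
  have h4 : ∏ j, z j ^ (2 * (n - (j : ℕ)) - 1) = ∏ j, z j ^ (2 * (Fin.rev j : ℕ) + 1) := by
    refine Finset.prod_congr rfl fun j _ => ?_
    congr 1
    rw [Fin.val_rev]
    have := j.2
    omega
  rw [h4]
  exact_mod_cast h3

/-- two-sided inequality -/
theorem two_sided (h : MPyth X Y) (n : ℕ) (x y : Fin (n + 1) → ℕ) (z : ℕ) (hx : StrictMono x)
    (hy : StrictMono y) (hX : ∀ i, x i = 0 ∨ x i ∈ X) (hY : ∀ j, y j = 0 ∨ y j ∈ Y)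
    (hz : z ^ 2 = x 0 ^ 2 + y 0 ^ 2) (hz0 : 0 < z) :
    z ^ (n * (2 * n + 1)) ≤ n.factorial * 2 ^ (n * (n - 1)) * (gaps x * gaps y) := by
  have hs : ∀ i j, ∃ s : ℕ, s ^ 2 = x i ^ 2 + y j ^ 2 := fun i j => h.sq (hX i) (hY j)
  choose s hs using hs
  have hq : (0 : ℝ) < z := by exact_mod_cast hz0
  have hq2 : (z : ℝ) ^ 2 = (x 0 : ℝ) ^ 2 + (y 0 : ℝ) ^ 2 := by exact_mod_cast hz
  have hne := two_ne (fun i => (x i : ℝ) ^ 2) (fun j => (y j : ℝ) ^ 2) (z : ℝ) (sq_mono hx)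
    (by positivity) (sq_mono hy) (by positivity) hq hq2
  have hup := two_upper (fun i => (x i : ℝ) ^ 2) (fun j => (y j : ℝ) ^ 2) (z : ℝ) (sq_mono hx)
    (sq_mono hy) hq hq2
  have h1 := one_le_det _ (Matrix.of fun a b => ((s a.succ b.succ : ℤ) - (s 0 b.succ : ℤ)) -
    ((s a.succ 0 : ℤ) - (s 0 0 : ℤ))) (fun a b => by
    show Real.sqrt ((x a.succ : ℝ) ^ 2 + (y b.succ : ℝ) ^ 2) - Real.sqrt ((x 0 : ℝ) ^ 2 + (y b.succ : ℝ) ^ 2) -
      (Real.sqrt ((x a.succ : ℝ) ^ 2 + (y 0 : ℝ) ^ 2) - Real.sqrt ((x 0 : ℝ) ^ 2 + (y 0 : ℝ) ^ 2)) = _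
    rw [sqrt_nat (hs a.succ b.succ), sqrt_nat (hs 0 b.succ), sqrt_nat (hs a.succ 0), sqrt_nat (hs 0 0)]
    simp) hne
  rw [vm_gaps x hx, vm_gaps y hy] at hup
  have h2 : (0 : ℝ) ≤ (z : ℝ) ^ (n * (2 * n + 1)) := by positivity
  have h3 : (z : ℝ) ^ (n * (2 * n + 1)) ≤ n.factorial * 2 ^ (n * (n - 1)) * ((gaps x : ℝ) * gaps y) := by
    refine le_trans ?_ hup
    exact le_mul_of_one_le_right h2 h1
  exact_mod_cast h3

/-! ### Consequences -/

lemma gaps_le {n : ℕ} (x : Fin (n + 1) → ℕ) (C : ℕ) (h : ∀ i j, j < i → x i ^ 2 - x j ^ 2 ≤ C) :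
    gaps x ^ 2 ≤ C ^ ((n + 1) * n) := by
  have h1 : gaps x ≤ ∏ i : Fin (n + 1), C ^ (i : ℕ) := by
    unfold gaps
    refine Finset.prod_le_prod' fun i _ => ?_
    calc ∏ j ∈ Finset.Iio i, (x i ^ 2 - x j ^ 2) ≤ ∏ _j ∈ Finset.Iio i, C :=
          Finset.prod_le_prod' fun j hj => h i j (Finset.mem_Iio.1 hj)
      _ = C ^ (i : ℕ) := by rw [Finset.prod_const, Fin.card_Iio]
  have h2 : ∏ i : Fin (n + 1), C ^ (i : ℕ) = C ^ (∑ i : Fin (n + 1), (i : ℕ)) := Finset.prod_pow_eq_pow_sum _ _ _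
  have h3 : (∑ i : Fin (n + 1), (i : ℕ)) * 2 = (n + 1) * n := by
    rw [Fin.sum_univ_eq_sum_range (fun i => i) (n + 1), Finset.sum_range_id_mul_two, Nat.add_sub_cancel]
  calc gaps x ^ 2 ≤ (C ^ (∑ i : Fin (n + 1), (i : ℕ))) ^ 2 := Nat.pow_le_pow_left (h1.trans h2.le) 2
    _ = C ^ ((n + 1) * n) := by rw [← pow_mul, h3]

lemma sum_odd (n : ℕ) : ∑ j : Fin n, (2 * (n - (j : ℕ)) - 1) = n ^ 2 := by
  have h1 : ∀ j : Fin n, 2 * (n - (j : ℕ)) - 1 = 2 * (Fin.rev j : ℕ) + 1 := fun j => by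
    rw [Fin.val_rev]
    have := j.2
    omega
  have h2 : ∑ j : Fin n, (2 * (Fin.rev j : ℕ) + 1) = ∑ j : Fin n, (2 * (j : ℕ) + 1) :=
    Equiv.sum_comp Fin.revPerm (fun j : Fin n => 2 * (j : ℕ) + 1)
  have h3 : ∀ m : ℕ, ∑ x ∈ Finset.range m, (2 * x + 1) = m ^ 2 := by
    intro m
    induction m with
    | zero => rfl
    | succ m ih =>
      rw [Finset.sum_range_succ, ih]
      ring
  rw [Finset.sum_congr rfl fun j _ => h1 j, h2, Fin.sum_univ_eq_sum_range (fun j => 2 * j + 1) n, h3]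

/-- enumeration of a finite set of positive numbers, after zero -/
lemma exists_enum0 (A : Finset ℕ) (hA : ∀ x ∈ A, 0 < x) (k : ℕ) (hk : A.card = k) :
    ∃ x : Fin (k + 1) → ℕ, StrictMono x ∧ x 0 = 0 ∧ ∀ i, x i = 0 ∨ x i ∈ A := by
  subst hk
  refine ⟨Fin.cons 0 (A.orderEmbOfFin rfl), fun i j hij => ?_, rfl, fun i => ?_⟩
  · cases j using Fin.cases with
    | zero => exact absurd hij (not_lt.2 (Fin.zero_le i))
    | succ j =>
      rw [Fin.cons_succ]
      cases i using Fin.cases with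
      | zero =>
        rw [Fin.cons_zero]
        exact hA _ (A.orderEmbOfFin_mem rfl j)
      | succ i =>
        rw [Fin.cons_succ]
        exact (A.orderEmbOfFin rfl).strictMono (Fin.succ_lt_succ_iff.1 hij)
  · cases i using Fin.cases with
    | zero => exact Or.inl rfl
    | succ i =>
      rw [Fin.cons_succ]
      exact Or.inr (A.orderEmbOfFin_mem rfl i)

lemma exists_enum (B : Finset ℕ) (m : ℕ) (h : m ≤ B.card) : ∃ y : Fin m → ℕ, StrictMono y ∧ ∀ i, y i ∈ B := by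
  obtain ⟨B', hB, hc⟩ := Finset.exists_subset_card_eq h
  exact ⟨B'.orderEmbOfFin hc, (B'.orderEmbOfFin hc).strictMono, fun i => hB (B'.orderEmbOfFin_mem hc i)⟩

/-- windows -/
theorem window (h : MPyth X Y) (A B : Finset ℕ) (a : ℕ) (hA : (A : Set ℕ) ⊆ X) (hB : (B : Set ℕ) ⊆ Y)
    (hA1 : A.Nonempty) (ha : ∀ x ∈ A, x ≤ a) (hb : ∀ y ∈ B, a ^ (A.card + 1) ≤ y ^ A.card) :
    B.card < A.card := by
  by_contra hcon
  obtain ⟨k, hk⟩ : ∃ k, A.card = k := ⟨_, rfl⟩
  have hk1 : 1 ≤ k := hk ▸ Finset.card_pos.2 hA1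
  rw [hk] at hb hcon
  rw [not_lt] at hcon
  obtain ⟨x, hx, hx0, hxA⟩ := exists_enum0 A (fun x hx => h.1 x (hA hx)) k hk
  obtain ⟨y, hy, hyB⟩ := exists_enum B k hcon
  have hy0 : ∀ j, 0 < y j := fun j => h.2.1 _ (hB (hyB j))
  have ha0 : 0 < a := by
    obtain ⟨x', hx'⟩ := hA1
    exact (h.1 x' (hA hx')).trans_le (ha x' hx')
  have h1 := one_sided h k x y y hx hy (fun i => (hxA i).imp_right fun h' => hA h')
    (fun j => Or.inr (hB (hyB j))) (fun j => by rw [hx0]; ring) hy0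
  have h2 := gaps_le x (a ^ 2) (fun i j _ => by
    have hi : x i ≤ a := by
      rcases hxA i with h' | h'
      · rw [h']
        exact Nat.zero_le a
      · exact ha _ h'
    exact (Nat.sub_le _ _).trans (Nat.pow_le_pow_left hi 2))
  have h3 : (a ^ (k + 1)) ^ (k ^ 2) ≤ (∏ j, y j ^ (2 * (k - (j : ℕ)) - 1)) ^ k := by
    rw [← Finset.prod_pow, ← sum_odd k, ← Finset.prod_pow_eq_pow_sum]
    refine Finset.prod_le_prod' fun j _ => ?_
    have e : (y j ^ (2 * (k - (j : ℕ)) - 1)) ^ k = (y j ^ k) ^ (2 * (k - (j : ℕ)) - 1) := by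
      rw [← pow_mul, ← pow_mul, mul_comm]
    rw [e]
    exact Nat.pow_le_pow_left (hb _ (hyB j)) _
  have h4 : (2 ^ k * ∏ j, y j ^ (2 * (k - (j : ℕ)) - 1)) ^ (2 * k) ≤ (a ^ (k + 1)) ^ (k ^ 2) *
      (a ^ (k + 1)) ^ (k ^ 2) := by
    calc (2 ^ k * ∏ j, y j ^ (2 * (k - (j : ℕ)) - 1)) ^ (2 * k) ≤ (gaps x) ^ (2 * k) :=
          Nat.pow_le_pow_left h1 _
      _ = (gaps x ^ 2) ^ k := by rw [pow_mul]
      _ ≤ ((a ^ 2) ^ ((k + 1) * k)) ^ k := Nat.pow_le_pow_left h2 _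
      _ = _ := by
        rw [← pow_mul, ← pow_mul, ← pow_mul, ← pow_add]
        congr 1
        ring
  have h5 : (2 ^ k) ^ (2 * k) * ((a ^ (k + 1)) ^ (k ^ 2) * (a ^ (k + 1)) ^ (k ^ 2)) ≤
      (2 ^ k * ∏ j, y j ^ (2 * (k - (j : ℕ)) - 1)) ^ (2 * k) := by
    rw [mul_pow]
    refine Nat.mul_le_mul_left _ ?_
    have e : (∏ j, y j ^ (2 * (k - (j : ℕ)) - 1)) ^ (2 * k) =
        (∏ j, y j ^ (2 * (k - (j : ℕ)) - 1)) ^ k * (∏ j, y j ^ (2 * (k - (j : ℕ)) - 1)) ^ k := by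
      rw [two_mul k, ← pow_add]
    rw [e]
    exact Nat.mul_le_mul h3 h3
  have h6 : 0 < (a ^ (k + 1)) ^ (k ^ 2) * (a ^ (k + 1)) ^ (k ^ 2) := by positivity
  have h7 : 1 < (2 ^ k) ^ (2 * k) := by
    rw [← pow_mul]
    exact Nat.one_lt_two_pow (by positivity)
  nlinarith [h5.trans h4]

/-- short intervals -/
theorem short (h : MPyth X Y) (A B : Finset ℕ) (M L : ℕ) (hA : (A : Set ℕ) ⊆ X) (hB : (B : Set ℕ) ⊆ Y)
    (hb : ∀ y ∈ B, M ≤ y ∧ y ≤ M + L) (hL : 4 ^ (A.card + 1) * L ^ (A.card + 2) < M ^ A.card) :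
    B.card ≤ A.card + 1 := by
  by_contra hcon
  obtain ⟨k, hk⟩ : ∃ k, A.card = k := ⟨_, rfl⟩
  rw [hk] at hL hcon
  rw [not_le] at hcon
  obtain ⟨x, hx, hx0, hxA⟩ := exists_enum0 A (fun x hx => h.1 x (hA hx)) k hk
  obtain ⟨y, hy, hyB⟩ := exists_enum B (k + 1 + 1) hcon
  have hLM : L ≤ M := by
    by_contra hc
    rw [not_le] at hc
    have h1 : M ^ k ≤ L ^ k := Nat.pow_le_pow_left hc.le k
    have h2 : L ^ k ≤ L ^ (k + 2) := Nat.pow_le_pow_right (by omega) (by omega)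
    have h3 : L ^ (k + 2) ≤ 4 ^ (k + 1) * L ^ (k + 2) := Nat.le_mul_of_pos_left _ (by positivity)
    omega
  have hs : ∀ j, ∃ s : ℕ, s ^ 2 = y 0 ^ 2 + x j ^ 2 := fun j =>
    h.symm.sq (Or.inr (hB (hyB 0))) ((hxA j).imp_right fun h' => hA h')
  choose z hz using hs
  have hM0 : M ≤ y 0 := (hb _ (hyB 0)).1
  have hy0 : 0 < y 0 := h.2.1 _ (hB (hyB 0))
  have hzM : ∀ j, y 0 ≤ z j := fun j => by
    refine (Nat.pow_le_pow_iff_left two_ne_zero).1 ?_
    rw [hz]
    exact Nat.le_add_right _ _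
  have h1 := one_sided h.symm (k + 1) y x z hy hx (fun i => Or.inr (hB (hyB i)))
    (fun i => (hxA i).imp_right fun h' => hA h') hz (fun j => hy0.trans_le (hzM j))
  have h2 := gaps_le y (4 * M * L) (fun i j hij => by
    have hi := hb _ (hyB i)
    have hj := hb _ (hyB j)
    have hlt := hy hij
    rw [Nat.sq_sub_sq]
    have e1 : y i - y j ≤ L := by omega
    have e2 : y i + y j ≤ 4 * M := by omega
    calc (y i + y j) * (y i - y j) ≤ (4 * M) * L := Nat.mul_le_mul e2 e1)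
  have h3 : M ^ ((k + 1) ^ 2) ≤ ∏ j, z j ^ (2 * (k + 1 - (j : ℕ)) - 1) := by
    rw [← sum_odd (k + 1), ← Finset.prod_pow_eq_pow_sum]
    exact Finset.prod_le_prod' fun j _ => Nat.pow_le_pow_left (hM0.trans (hzM j)) _
  have h4 : (2 ^ (k + 1) * M ^ ((k + 1) ^ 2)) ^ 2 ≤ (4 * M * L) ^ ((k + 1 + 1) * (k + 1)) :=
    (Nat.pow_le_pow_left ((Nat.mul_le_mul_left _ h3).trans h1) 2).trans h2
  have h5 : (4 ^ (k + 1) * L ^ (k + 2)) ^ (k + 1) < (M ^ k) ^ (k + 1) := Nat.pow_lt_pow_left hL (by omega)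
  have hMpos : 0 < M := by
    by_contra hc
    have hM : M = 0 := by omega
    have hL0 : L = 0 := by omega
    have a1 := hb _ (hyB 0)
    rw [hM, hL0] at a1
    omega
  have h6 : (2 ^ (k + 1) * M ^ ((k + 1) ^ 2)) ^ 2 =
      4 ^ (k + 1) * (M ^ ((k + 2) * (k + 1)) * (M ^ k) ^ (k + 1)) := by
    rw [mul_pow, ← pow_mul, ← pow_mul, ← pow_mul, ← pow_add]
    congr 1
    · rw [mul_comm (k + 1) 2, pow_mul]
      norm_num
    · congr 1
      ring
  have h7 : (4 * M * L) ^ ((k + 1 + 1) * (k + 1)) =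
      4 ^ (k + 1) * (M ^ ((k + 2) * (k + 1)) * (4 ^ (k + 1) * L ^ (k + 2)) ^ (k + 1)) := by
    rw [mul_pow, mul_pow, mul_pow]
    have e1 : (4 : ℕ) ^ ((k + 1 + 1) * (k + 1)) = 4 ^ (k + 1) * (4 ^ (k + 1)) ^ (k + 1) := by
      rw [← pow_mul, ← pow_add]
      congr 1
      ring
    have e2 : L ^ ((k + 1 + 1) * (k + 1)) = (L ^ (k + 2)) ^ (k + 1) := by
      rw [← pow_mul]
    rw [e1, e2]
    ring
  rw [h6, h7] at h4
  have h8 : 0 < 4 ^ (k + 1) := by positivity
  have h9 : 0 < M ^ ((k + 2) * (k + 1)) := by positivity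
  have h10 := Nat.le_of_mul_le_mul_left h4 h8
  have h11 := Nat.le_of_mul_le_mul_left h10 h9
  omega

/-- both sets in short intervals -/
theorem box (h : MPyth X Y) (A B : Finset ℕ) (a b L L' n : ℕ) (hA : (A : Set ℕ) ⊆ X) (hB : (B : Set ℕ) ⊆ Y)
    (hn : 1 ≤ n) (hcA : n + 1 ≤ A.card) (hcB : n + 1 ≤ B.card) (ha : ∀ x ∈ A, a ≤ x ∧ x ≤ a + L)
    (hb : ∀ y ∈ B, b ≤ y ∧ y ≤ b + L') (hL : L ≤ a) (hL' : L' ≤ b) :
    (a ^ 2 + b ^ 2) ^ n ≤ n ^ 2 * 4 ^ (n - 1) * (8 * L * L') ^ (n + 1) := by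
  obtain ⟨x, hx, hxA⟩ := exists_enum A (n + 1) hcA
  obtain ⟨y, hy, hyB⟩ := exists_enum B (n + 1) hcB
  obtain ⟨z, hz⟩ := h.sq (Or.inr (hA (hxA 0))) (Or.inr (hB (hyB 0)))
  have hx0 : 0 < x 0 := h.1 _ (hA (hxA 0))
  have hz0 : 0 < z := by
    by_contra hc
    have : z = 0 := by omega
    rw [this] at hz
    have := pow_pos hx0 2
    omega
  have ha0 : 0 < a := by
    have := ha _ (hxA 0)
    omega
  have h1 := two_sided h n x y z hx hy (fun i => Or.inr (hA (hxA i))) (fun i => Or.inr (hB (hyB i))) hz hz0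
  have g1 := gaps_le x (4 * a * L) (fun i j hij => by
    have hi := ha _ (hxA i)
    have hj := ha _ (hxA j)
    have hlt := hx hij
    rw [Nat.sq_sub_sq]
    exact Nat.mul_le_mul (by omega) (by omega))
  have g2 := gaps_le y (4 * b * L') (fun i j hij => by
    have hi := hb _ (hyB i)
    have hj := hb _ (hyB j)
    have hlt := hy hij
    rw [Nat.sq_sub_sq]
    exact Nat.mul_le_mul (by omega) (by omega))
  set S := a ^ 2 + b ^ 2 with hS
  have hS0 : 0 < S := by positivity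
  have hSz : S ≤ z ^ 2 := by
    rw [hz, hS]
    exact Nat.add_le_add (Nat.pow_le_pow_left (ha _ (hxA 0)).1 2) (Nat.pow_le_pow_left (hb _ (hyB 0)).1 2)
  have h2 : S ^ (n * (2 * n + 1)) ≤ (n.factorial * 2 ^ (n * (n - 1)) * (gaps x * gaps y)) ^ 2 := by
    calc S ^ (n * (2 * n + 1)) ≤ (z ^ 2) ^ (n * (2 * n + 1)) := Nat.pow_le_pow_left hSz _
      _ = (z ^ (n * (2 * n + 1))) ^ 2 := by rw [← pow_mul, ← pow_mul, mul_comm]
      _ ≤ _ := Nat.pow_le_pow_left h1 2
  have hab : 4 * a * L * (4 * b * L') ≤ S * (8 * L * L') := by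
    have h3 : 2 * a * b ≤ S := by
      rw [hS]
      nlinarith [sq_nonneg ((a : ℤ) - b), two_mul_le_add_sq a b]
    calc 4 * a * L * (4 * b * L') = (2 * a * b) * (8 * L * L') := by ring
      _ ≤ S * (8 * L * L') := Nat.mul_le_mul_right _ h3
  have h4 : (gaps x * gaps y) ^ 2 ≤ S ^ ((n + 1) * n) * (8 * L * L') ^ ((n + 1) * n) := by
    calc (gaps x * gaps y) ^ 2 = gaps x ^ 2 * gaps y ^ 2 := by ring
      _ ≤ (4 * a * L) ^ ((n + 1) * n) * (4 * b * L') ^ ((n + 1) * n) := Nat.mul_le_mul g1 g2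
      _ = (4 * a * L * (4 * b * L')) ^ ((n + 1) * n) := by rw [← mul_pow]
      _ ≤ (S * (8 * L * L')) ^ ((n + 1) * n) := Nat.pow_le_pow_left hab _
      _ = _ := by rw [mul_pow]
  have h5 : S ^ ((n + 1) * n) * (S ^ n) ^ n ≤
      S ^ ((n + 1) * n) * (n ^ 2 * 4 ^ (n - 1) * (8 * L * L') ^ (n + 1)) ^ n := by
    calc S ^ ((n + 1) * n) * (S ^ n) ^ n = S ^ (n * (2 * n + 1)) := by
          rw [← pow_mul, ← pow_add]
          congr 1
          ring
      _ ≤ (n.factorial * 2 ^ (n * (n - 1)) * (gaps x * gaps y)) ^ 2 := h2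
      _ = n.factorial ^ 2 * (2 ^ (n * (n - 1))) ^ 2 * (gaps x * gaps y) ^ 2 := by ring
      _ ≤ (n ^ n) ^ 2 * (2 ^ (n * (n - 1))) ^ 2 * (S ^ ((n + 1) * n) * (8 * L * L') ^ ((n + 1) * n)) :=
          Nat.mul_le_mul (Nat.mul_le_mul_right _ (Nat.pow_le_pow_left (Nat.factorial_le_pow n) 2)) h4
      _ = S ^ ((n + 1) * n) * ((n ^ 2) ^ n * (4 ^ (n - 1)) ^ n * ((8 * L * L') ^ (n + 1)) ^ n) := by
          have e1 : (n ^ n) ^ 2 = (n ^ 2) ^ n := by rw [← pow_mul, ← pow_mul, mul_comm]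
          have e2 : (2 ^ (n * (n - 1))) ^ 2 = (4 ^ (n - 1)) ^ n := by
            have : (4 : ℕ) = 2 ^ 2 := rfl
            rw [this, ← pow_mul, ← pow_mul, ← pow_mul]
            congr 1
            ring
          rw [e1, e2, ← pow_mul (8 * L * L')]
          ring
      _ = _ := by rw [← mul_pow, ← mul_pow]
  have h6 := Nat.le_of_mul_le_mul_left h5 (by positivity)
  exact (Nat.pow_le_pow_iff_left (by omega)).1 h6

/-- lacunary sets -/
theorem lacunary (h : MPyth X Y) (d : ℕ) (hd : 1 ≤ d)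
    (hX : ∀ x ∈ X, ∀ x' ∈ X, x < x' → x ^ (d + 1) ≤ x' ^ d) (A B : Finset ℕ) (hA : (A : Set ℕ) ⊆ X)
    (hB : (B : Set ℕ) ⊆ Y) : A.card ≤ 6 * d - 1 ∨ B.card ≤ 6 * d - 2 := by
  classical
  by_contra hcon
  rw [not_or, not_le, not_le] at hcon
  obtain ⟨hcA, hcB⟩ := hcon
  obtain ⟨N, hN⟩ : ∃ N, A.card = N := ⟨_, rfl⟩
  rw [hN] at hcA
  have e := A.orderEmbOfFin hN
  let i0 : Fin N := ⟨3 * d - 1, by omega⟩
  set m := A.orderEmbOfFin hN i0 with hm
  have hmA : m ∈ A := A.orderEmbOfFin_mem hN i0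
  have hm0 : 0 < m := h.1 _ (hA hmA)
  set A1 := (Finset.Iic i0).map (A.orderEmbOfFin hN).toEmbedding with hA1
  set A2 := (Finset.Ioi i0).map (A.orderEmbOfFin hN).toEmbedding with hA2
  have hc1 : A1.card = 3 * d := by
    rw [hA1, Finset.card_map, Fin.card_Iic]
    show 3 * d - 1 + 1 = 3 * d
    omega
  have hc2 : 3 * d ≤ A2.card := by
    rw [hA2, Finset.card_map, Fin.card_Ioi]
    show 3 * d ≤ N - 1 - (3 * d - 1)
    omega
  have hs1 : ∀ x ∈ A1, x ∈ A ∧ x ≤ m := by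
    intro x hx
    rw [hA1, Finset.mem_map] at hx
    obtain ⟨i, hi, rfl⟩ := hx
    exact ⟨A.orderEmbOfFin_mem hN i, (A.orderEmbOfFin hN).monotone (Finset.mem_Iic.1 hi)⟩
  have hs2 : ∀ x ∈ A2, x ∈ A ∧ m < x := by
    intro x hx
    rw [hA2, Finset.mem_map] at hx
    obtain ⟨i, hi, rfl⟩ := hx
    exact ⟨A.orderEmbOfFin_mem hN i, (A.orderEmbOfFin hN).strictMono (Finset.mem_Ioi.1 hi)⟩
  -- few elements of `B` beyond the window
  set B1 := B.filter (fun y => m ^ (3 * d + 1) ≤ y ^ (3 * d)) with hB1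
  have w1 : B1.card < A1.card := window h A1 B1 m (fun x hx => hA (hs1 x hx).1)
    (fun y hy => hB (Finset.mem_filter.1 hy).1) (Finset.card_pos.1 (by omega)) (fun x hx => (hs1 x hx).2)
    (fun y hy => by
      rw [hc1]
      exact (Finset.mem_filter.1 hy).2)
  have hc3 : 3 * d ≤ (B.filter (fun y => ¬ m ^ (3 * d + 1) ≤ y ^ (3 * d))).card := by
    have h1 := Finset.card_filter_add_card_filter_not (s := B) (fun y => m ^ (3 * d + 1) ≤ y ^ (3 * d))
    rw [← hB1] at h1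
    omega
  obtain ⟨B2, hB2, hcB2⟩ := Finset.exists_subset_card_eq hc3
  have hne : B2.Nonempty := Finset.card_pos.1 (by omega)
  obtain ⟨nn, hnn, hmax⟩ := Finset.exists_max_image B2 id hne
  have hnn1 : nn ^ (3 * d) < m ^ (3 * d + 1) := not_le.1 (Finset.mem_filter.1 (hB2 hnn)).2
  have w2 : A2.card < B2.card := window h.symm B2 A2 nn
    (fun y hy => hB (Finset.mem_filter.1 (hB2 hy)).1) (fun x hx => hA (hs2 x hx).1) hne
    (fun y hy => hmax y hy) (fun x hx => by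
      rw [hcB2]
      have h1 := hX m (hA hmA) x (hA (hs2 x hx).1) (hs2 x hx).2
      refine (Nat.pow_le_pow_iff_left (n := 3 * d) (by omega)).1 ?_
      calc (nn ^ (3 * d + 1)) ^ (3 * d) = (nn ^ (3 * d)) ^ (3 * d + 1) := by
            rw [← pow_mul, ← pow_mul, mul_comm]
        _ ≤ (m ^ (3 * d + 1)) ^ (3 * d + 1) := Nat.pow_le_pow_left hnn1.le _
        _ = m ^ ((3 * d + 1) * (3 * d + 1)) := by rw [← pow_mul]
        _ ≤ m ^ ((d + 1) * (9 * d)) := Nat.pow_le_pow_right hm0 (by nlinarith)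
        _ = (m ^ (d + 1)) ^ (9 * d) := by rw [← pow_mul]
        _ ≤ (x ^ d) ^ (9 * d) := Nat.pow_le_pow_left h1 _
        _ = (x ^ (3 * d)) ^ (3 * d) := by
          rw [← pow_mul, ← pow_mul]
          congr 1
          ring)
  omega

/-- growth along an enumeration: every interval `[u, lam u]` holds at most `t` elements -/
lemma growth {n : ℕ} (e : Fin n ↪o ℕ) (lam : ℝ) (t : ℕ) (hlam : 1 < lam)
    (hX : ∀ i : Fin n, ∀ F : Finset (Fin n), (∀ j ∈ F, i ≤ j ∧ (e j : ℝ) ≤ lam * e i) → F.card ≤ t) (i : Fin n) :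
    ∀ (s : ℕ) (j : Fin n), (i : ℕ) + t * s ≤ j → lam ^ s * (e i : ℝ) ≤ e j := by
  intro s
  induction s with
  | zero =>
    intro j hj
    rw [pow_zero, one_mul]
    have h1 : i ≤ j := by
      rw [Fin.le_def]
      omega
    exact_mod_cast e.monotone h1
  | succ s ih =>
    intro j hj
    have hle : (i : ℕ) + t * s + t ≤ j := by
      rw [Nat.mul_succ] at hj
      omega
    have h1 : (i : ℕ) + t * s < n := by
      have := j.2
      omega
    have h2 := ih ⟨(i : ℕ) + t * s, h1⟩ le_rfl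
    set a : Fin n := ⟨(i : ℕ) + t * s, h1⟩ with ha
    have h3 : lam * (e a : ℝ) < e j := by
      by_contra hc
      rw [not_lt] at hc
      have h4 := hX a (Finset.Icc a j) (fun b hb => by
        rw [Finset.mem_Icc] at hb
        refine ⟨hb.1, le_trans ?_ hc⟩
        exact_mod_cast e.monotone hb.2)
      rw [Fin.card_Icc] at h4
      have h5 : (a : ℕ) = (i : ℕ) + t * s := rfl
      rw [h5] at h4
      omega
    calc lam ^ (s + 1) * (e i : ℝ) = lam * (lam ^ s * (e i : ℝ)) := by ring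
      _ ≤ lam * (e a : ℝ) := mul_le_mul_of_nonneg_left h2 (by linarith)
      _ ≤ e j := h3.le

/-- concentration: up to `k - 1` elements at both ends, `A` lies in a window -/
theorem concentration (h : MPyth X Y) (A B : Finset ℕ) (k : ℕ) (hA : (A : Set ℕ) ⊆ X) (hB : (B : Set ℕ) ⊆ Y)
    (hk : 1 ≤ k) (hcA : 2 * k - 1 ≤ A.card) (hcB : 2 * k - 1 ≤ B.card) :
    (A.orderEmbOfFin rfl ⟨A.card - k, by omega⟩) ^ (k ^ 2) < (A.orderEmbOfFin rfl ⟨k - 1, by omega⟩) ^ ((k + 1) ^ 2) := by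
  classical
  set e := A.orderEmbOfFin rfl with he
  set i0 : Fin A.card := ⟨k - 1, by omega⟩ with hi0
  set i1 : Fin A.card := ⟨A.card - k, by omega⟩ with hi1
  have hmA : ∀ i, e i ∈ A := fun i => A.orderEmbOfFin_mem rfl i
  have hm0 : 0 < e i0 := h.1 _ (hA (hmA i0))
  set A1 := (Finset.Iic i0).map e.toEmbedding with hA1
  set A2 := (Finset.Ici i1).map e.toEmbedding with hA2
  have hc1 : A1.card = k := by
    rw [hA1, Finset.card_map, Fin.card_Iic]
    show k - 1 + 1 = k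
    omega
  have hc2 : A2.card = k := by
    rw [hA2, Finset.card_map, Fin.card_Ici]
    show A.card - (A.card - k) = k
    omega
  have hs1 : ∀ x ∈ A1, x ∈ A ∧ x ≤ e i0 := by
    intro x hx
    rw [hA1, Finset.mem_map] at hx
    obtain ⟨i, hi, rfl⟩ := hx
    exact ⟨hmA i, e.monotone (Finset.mem_Iic.1 hi)⟩
  have hs2 : ∀ x ∈ A2, x ∈ A ∧ e i1 ≤ x := by
    intro x hx
    rw [hA2, Finset.mem_map] at hx
    obtain ⟨i, hi, rfl⟩ := hx
    exact ⟨hmA i, e.monotone (Finset.mem_Ici.1 hi)⟩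
  set B1 := B.filter (fun y => (e i0) ^ (k + 1) ≤ y ^ k) with hB1
  have w1 : B1.card < A1.card := window h A1 B1 (e i0) (fun x hx => hA (hs1 x hx).1)
    (fun y hy => hB (Finset.mem_filter.1 hy).1) (Finset.card_pos.1 (by omega)) (fun x hx => (hs1 x hx).2)
    (fun y hy => by
      rw [hc1]
      exact (Finset.mem_filter.1 hy).2)
  have hc3 : k ≤ (B.filter (fun y => ¬ (e i0) ^ (k + 1) ≤ y ^ k)).card := by
    have h1 := Finset.card_filter_add_card_filter_not (s := B) (fun y => (e i0) ^ (k + 1) ≤ y ^ k)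
    rw [← hB1] at h1
    omega
  obtain ⟨B2, hB2, hcB2⟩ := Finset.exists_subset_card_eq hc3
  have hne : B2.Nonempty := Finset.card_pos.1 (by omega)
  obtain ⟨nn, hnn, hmax⟩ := Finset.exists_max_image B2 id hne
  have hnn1 : nn ^ k < (e i0) ^ (k + 1) := not_le.1 (Finset.mem_filter.1 (hB2 hnn)).2
  have h2 : (e i1) ^ k < nn ^ (k + 1) := by
    by_contra hc
    rw [not_lt] at hc
    have w2 : A2.card < B2.card := window h.symm B2 A2 nn
      (fun y hy => hB (Finset.mem_filter.1 (hB2 hy)).1) (fun x hx => hA (hs2 x hx).1) hne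
      (fun y hy => hmax y hy) (fun x hx => by
        rw [hcB2]
        exact hc.trans (Nat.pow_le_pow_left (hs2 x hx).2 k))
    omega
  calc (e i1) ^ (k ^ 2) = ((e i1) ^ k) ^ k := by rw [← pow_mul, sq]
    _ < (nn ^ (k + 1)) ^ k := Nat.pow_lt_pow_left h2 (by omega)
    _ = (nn ^ k) ^ (k + 1) := by rw [← pow_mul, ← pow_mul, mul_comm]
    _ ≤ ((e i0) ^ (k + 1)) ^ (k + 1) := Nat.pow_le_pow_left hnn1.le _
    _ = (e i0) ^ ((k + 1) ^ 2) := by rw [← pow_mul, sq]

lemma lt_sq (h : MPyth X Y) {x y : ℕ} (hx : x ∈ X) (hy : y ∈ Y) : y < x ^ 2 := by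
  obtain ⟨s, hs⟩ := h.2.2 x hx y hy
  have hx0 := h.1 x hx
  have h1 : y < s := by
    by_contra hc
    rw [not_lt] at hc
    have : s * s ≤ y ^ 2 := by nlinarith
    have := pow_pos hx0 2
    omega
  have h2 : (y + 1) * (y + 1) ≤ s * s := Nat.mul_le_mul h1 h1
  nlinarith

/-- sparse sets -/
theorem sparse (h : MPyth X Y) (lam : ℝ) (t : ℕ) (hlam : 1 < lam) (ht : 1 ≤ t)
    (hX : ∀ (u : ℝ) (F : Finset ℕ), (∀ x ∈ F, x ∈ X ∧ u ≤ x ∧ (x : ℝ) ≤ lam * u) → F.card ≤ t)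
    (m : ℕ) (hm : m ∈ X ∪ Y) (A B : Finset ℕ) (hA : (A : Set ℕ) ⊆ X) (hB : (B : Set ℕ) ⊆ Y) :
    ((min A.card B.card : ℕ) : ℝ) ≤ 10 * √(t * (Real.log m / Real.log lam)) + t := by
  have hl : 0 < Real.log lam := Real.log_pos hlam
  have htR : (1 : ℝ) ≤ t := by exact_mod_cast ht
  by_contra hcon
  rw [not_le] at hcon
  set N := min A.card B.card with hN
  have hs0 : 0 ≤ √(t * (Real.log m / Real.log lam)) := Real.sqrt_nonneg _
  have hN1 : 1 < (N : ℝ) := by linarith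
  have hN1' : 1 < N := by exact_mod_cast hN1
  have hNA : N ≤ A.card := min_le_left _ _
  have hNB : N ≤ B.card := min_le_right _ _
  obtain ⟨x0, hx0⟩ : A.Nonempty := Finset.card_pos.1 (by omega)
  obtain ⟨y0, hy0⟩ : B.Nonempty := Finset.card_pos.1 (by omega)
  have hm0 : 0 < m := by
    rcases hm with hm | hm
    · exact h.1 m hm
    · exact h.2.1 m hm
  -- all elements of `A` are at most `m ^ 4`
  have hAm : ∀ x ∈ A, x ≤ m ^ 4 := by
    intro x hx
    rcases hm with hm | hm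
    · have h1 := lt_sq h hm (hB hy0)
      have h2 := lt_sq h.symm (hB hy0) (hA hx)
      calc x ≤ y0 ^ 2 := h2.le
        _ ≤ (m ^ 2) ^ 2 := Nat.pow_le_pow_left h1.le 2
        _ = m ^ 4 := by rw [← pow_mul]
    · have h2 := lt_sq h.symm hm (hA hx)
      exact h2.le.trans (Nat.pow_le_pow_right hm0 (by norm_num))
  -- m is at least 2
  have hm2 : 1 < m := by
    rcases hm with hm | hm
    · have h1 := lt_sq h hm (hB hy0)
      have h2 := h.2.1 _ (hB hy0)
      by_contra hc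
      have : m = 1 := by omega
      rw [this] at h1
      omega
    · have h1 := lt_sq h.symm hm (hA hx0)
      have h2 := h.1 _ (hA hx0)
      by_contra hc
      have : m = 1 := by omega
      rw [this] at h1
      omega
  have hlm : 0 < Real.log m := Real.log_pos (by exact_mod_cast hm2)
  set T := t * (Real.log m / Real.log lam) with hT
  have hT0 : 0 < T := mul_pos (by linarith) (div_pos hlm hl)
  set r := √(6 * T) with hr
  have hr0 : 0 < r := Real.sqrt_pos.2 (by positivity)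
  have hrsq : r * r = 6 * T := Real.mul_self_sqrt (by positivity)
  have hr2 : 4 * r ≤ 10 * √T := by
    have h1 : √T * √T = T := Real.mul_self_sqrt hT0.le
    have h2 : (4 * r) ^ 2 ≤ (10 * √T) ^ 2 := by nlinarith
    exact le_of_sq_le_sq h2 (by positivity)
  have hcon2 : 4 * r + t < N := by linarith
  set k := ⌈r⌉₊ with hk
  have hk1 : 1 ≤ k := Nat.ceil_pos.2 hr0
  have hkr : r ≤ k := Nat.le_ceil r
  have hkr' : (k : ℝ) < r + 1 := Nat.ceil_lt_add_one hr0.le
  have h2k : 2 * k - 1 ≤ N := by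
    have : ((2 * k : ℕ) : ℝ) ≤ ((N + 1 : ℕ) : ℝ) := by
      push_cast
      linarith
    have : 2 * k ≤ N + 1 := by exact_mod_cast this
    omega
  have hc := concentration h A B k hA hB hk1 (h2k.trans hNA) (h2k.trans hNB)
  set e := A.orderEmbOfFin rfl with he
  have hmA : ∀ i, e i ∈ A := fun i => A.orderEmbOfFin_mem rfl i
  set D := A.card - k - (k - 1) with hD
  have hg := growth e lam t hlam (fun i F hF => by
    have h1 := hX (e i) (F.map e.toEmbedding) (fun x hx => by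
      rw [Finset.mem_map] at hx
      obtain ⟨j, hj, rfl⟩ := hx
      refine ⟨hA (hmA j), ?_, (hF j hj).2⟩
      exact_mod_cast e.monotone (hF j hj).1)
    rwa [Finset.card_map] at h1) ⟨k - 1, by omega⟩ (D / t) ⟨A.card - k, by omega⟩ (by
      show k - 1 + t * (D / t) ≤ A.card - k
      have := Nat.mul_div_le D t
      omega)
  set a0 := e ⟨k - 1, by omega⟩ with ha0
  set a1 := e ⟨A.card - k, by omega⟩ with ha1
  have ha0pos : 0 < a0 := h.1 _ (hA (hmA _))
  have ha1pos : 0 < a1 := h.1 _ (hA (hmA _))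
  have ha0R : (0 : ℝ) < a0 := by exact_mod_cast ha0pos
  have ha1R : (0 : ℝ) < a1 := by exact_mod_cast ha1pos
  set s := D / t with hs
  have hDs : (D : ℝ) ≤ t * s + t - 1 := by
    have h1 : D + 1 ≤ t * s + t := by
      have h2 : D < t * (s + 1) := Nat.lt_mul_div_succ D (show 0 < t by omega)
      rw [Nat.mul_succ] at h2
      exact h2
    have h2 : ((D + 1 : ℕ) : ℝ) ≤ ((t * s + t : ℕ) : ℝ) := by exact_mod_cast h1
    push_cast at h2
    linarith
  have hlog1 : (s : ℝ) * Real.log lam + Real.log a0 ≤ Real.log a1 := by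
    have h1 := Real.log_le_log (by positivity) hg
    rwa [Real.log_mul (by positivity) ha0R.ne', Real.log_pow] at h1
  have hlog2 : ((k ^ 2 : ℕ) : ℝ) * Real.log a1 < (((k + 1) ^ 2 : ℕ) : ℝ) * Real.log a0 := by
    have h1 : ((a1 : ℝ)) ^ (k ^ 2) < (a0 : ℝ) ^ ((k + 1) ^ 2) := by exact_mod_cast hc
    have h2 := Real.log_lt_log (by positivity) h1
    rwa [Real.log_pow, Real.log_pow] at h2
  have hlog3 : Real.log a0 ≤ 4 * Real.log m := by
    have h1 : (a0 : ℝ) ≤ (m : ℝ) ^ 4 := by exact_mod_cast hAm _ (hmA _)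
    have h2 := Real.log_le_log ha0R h1
    rw [Real.log_pow] at h2
    exact_mod_cast h2
  have hkR : (1 : ℝ) ≤ k := by exact_mod_cast hk1
  have h4 : (k : ℝ) ^ 2 * ((s : ℝ) * Real.log lam) ≤ (2 * k + 1) * (4 * Real.log m) := by
    push_cast at hlog2
    have h5 : (k : ℝ) ^ 2 * ((s : ℝ) * Real.log lam + Real.log a0) ≤ (k : ℝ) ^ 2 * Real.log a1 :=
      mul_le_mul_of_nonneg_left hlog1 (by positivity)
    have h6 : (2 * (k : ℝ) + 1) * Real.log a0 ≤ (2 * k + 1) * (4 * Real.log m) :=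
      mul_le_mul_of_nonneg_left hlog3 (by positivity)
    nlinarith
  have h5 : (k : ℝ) * (t * s) ≤ 12 * T := by
    have h6 : (k : ℝ) ^ 2 * ((s : ℝ) * Real.log lam) ≤ (3 * k) * (4 * Real.log m) :=
      h4.trans (mul_le_mul_of_nonneg_right (by linarith) (by positivity))
    have h7 : (k : ℝ) * s * Real.log lam ≤ 3 * (4 * Real.log m) := by
      have h8 : (k : ℝ) * ((k : ℝ) * s * Real.log lam) ≤ k * (3 * (4 * Real.log m)) := by
        calc (k : ℝ) * ((k : ℝ) * s * Real.log lam) = (k : ℝ) ^ 2 * ((s : ℝ) * Real.log lam) := by ring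
          _ ≤ (3 * k) * (4 * Real.log m) := h6
          _ = _ := by ring
      exact le_of_mul_le_mul_left h8 (by linarith)
    rw [hT]
    calc (k : ℝ) * (t * s) = t * ((k : ℝ) * s * Real.log lam / Real.log lam) := by field_simp
      _ ≤ t * (3 * (4 * Real.log m) / Real.log lam) :=
          mul_le_mul_of_nonneg_left (div_le_div_of_nonneg_right h7 hl.le) (by linarith)
      _ = 12 * (t * (Real.log m / Real.log lam)) := by ring
  have h6 : (t : ℝ) * s ≤ 2 * r := by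
    have h7 : r * (t * s) ≤ r * (2 * r) := by
      calc r * (t * s) ≤ k * (t * s) := mul_le_mul_of_nonneg_right hkr (by positivity)
        _ ≤ 12 * T := h5
        _ = r * (2 * r) := by linarith
    exact le_of_mul_le_mul_left h7 hr0
  have h7 : (N : ℝ) ≤ D + 2 * k - 1 := by
    have h8 : N + 1 ≤ D + 2 * k := by omega
    have h9 : ((N + 1 : ℕ) : ℝ) ≤ ((D + 2 * k : ℕ) : ℝ) := by exact_mod_cast h8
    push_cast at h9
    linarith
  linarith

end Pool.Agent.Lib_MP_bfde15
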