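import Mathlib
import Pool.Agent.Lib_MP_6b99df_fc.Weil
import Pool.Agent.Lib_MP_bfde15.Defs

/-!
# Sets `A`, `B` of residues modulo `p` with all sums `a + b` squares
-/

set_option autoImplicit false

namespace Pool.Agent.Lib_MP_bfde15

open Polynomial Finset

/-- The polynomial `∏ (X + α)`, `α ∈ T`. -/
noncomputable def shiftPoly {p : ℕ} (T : Finset (ZMod p)) : (ZMod p)[X] := ∏ α ∈ T, (X + C α)

theorem shiftPoly_monic {p : ℕ} [Fact p.Prime] (T : Finset (ZMod p)) : (shiftPoly T).Monic :=
  monic_prod_of_monic _ _ fun α _ => monic_X_add_C α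

theorem shiftPoly_eval {p : ℕ} (T : Finset (ZMod p)) (x : ZMod p) :
    (shiftPoly T).eval x = ∏ α ∈ T, (x + α) := by
  rw [shiftPoly, eval_prod]
  simp

theorem shiftPoly_natDegree {p : ℕ} [Fact p.Prime] (T : Finset (ZMod p)) : (shiftPoly T).natDegree = T.card := by
  rw [shiftPoly, natDegree_prod_of_monic _ _ fun α _ => monic_X_add_C α]
  simp

theorem shiftPoly_rootMultiplicity {p : ℕ} [Fact p.Prime] (T : Finset (ZMod p)) (α : ZMod p) :
    (shiftPoly T).rootMultiplicity (-α) = if α ∈ T then 1 else 0 := by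
  classical
  have h : shiftPoly T = ∏ β ∈ T.image (fun α => -α), (X - C β) := by
    rw [shiftPoly, Finset.prod_image (fun a _ b _ h => neg_injective h)]
    simp
  rw [h, ← count_roots, roots_prod_X_sub_C, Multiset.count_eq_card_filter_eq]
  by_cases hα : α ∈ T
  · rw [if_pos hα]
    have h1 : -α ∈ (T.image fun α => -α) := Finset.mem_image_of_mem _ hα
    rw [← Multiset.count_eq_card_filter_eq]
    exact Multiset.count_eq_one_of_mem (Finset.nodup _) h1
  · rw [if_neg hα, ← Multiset.count_eq_card_filter_eq]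
    apply Multiset.count_eq_zero_of_notMem
    intro h1
    have h2 : -α ∈ (T.image fun α => -α) := h1
    rw [Finset.mem_image] at h2
    obtain ⟨β, hβ, h3⟩ := h2
    rw [neg_inj] at h3
    exact hα (h3 ▸ hβ)

theorem shiftPoly_mul_ne {p : ℕ} [Fact p.Prime] (T T' : Finset (ZMod p)) (h : T ≠ T') (c : ZMod p) (g : (ZMod p)[X]) :
    shiftPoly T * shiftPoly T' ≠ C c * g ^ 2 := by
  intro he
  have h0 : shiftPoly T * shiftPoly T' ≠ 0 := (shiftPoly_monic T).mul (shiftPoly_monic T') |>.ne_zero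
  have hc : c ≠ 0 := by
    rintro rfl
    rw [he] at h0
    simp at h0
  have hg : g ≠ 0 := by
    rintro rfl
    rw [he] at h0
    simp at h0
  have hex : ∃ α, (α ∈ T ∧ α ∉ T') ∨ (α ∉ T ∧ α ∈ T') := by
    by_contra hcon
    push Not at hcon
    apply h
    ext α
    have := hcon α
    tauto
  obtain ⟨α, hα⟩ := hex
  have h1 : (shiftPoly T * shiftPoly T').rootMultiplicity (-α) = 1 := by
    rw [rootMultiplicity_mul h0, shiftPoly_rootMultiplicity, shiftPoly_rootMultiplicity]
    rcases hα with ⟨h2, h3⟩ | ⟨h2, h3⟩ <;> simp [h2, h3]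
  rw [he, rootMultiplicity_mul (by rw [← he]; exact h0), rootMultiplicity_C, zero_add, sq,
    rootMultiplicity_mul (mul_ne_zero hg hg)] at h1
  omega

/-- The key estimate modulo `p`: if all sums `α + β` are squares, then `|B| ≤ |A| + p / C(|A|, r) + 82 r √p`. -/
theorem card_le_of_isSquare_add (p : ℕ) [Fact p.Prime] (hp2 : p ≠ 2) (A B : Finset (ZMod p)) (r : ℕ) (hr : r ≤ A.card)
    (h : ∀ α ∈ A, ∀ β ∈ B, IsSquare (α + β)) :
    (B.card : ℝ) ≤ A.card + p / (A.card.choose r : ℝ) + 82 * r * √p := by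
  classical
  set χ := quadraticChar (ZMod p) with hχ
  set c := A.card.choose r with hc
  have hcpos : 0 < c := Nat.choose_pos hr
  set B' := B.filter (fun β => ∀ α ∈ A, β + α ≠ 0) with hB'
  have h1 : B.card ≤ B'.card + A.card := by
    have h2 : B ⊆ B' ∪ A.image (fun α => -α) := by
      intro β hβ
      rw [Finset.mem_union]
      by_cases h3 : ∀ α ∈ A, β + α ≠ 0
      · exact Or.inl (Finset.mem_filter.2 ⟨hβ, h3⟩)
      · push Not at h3
        obtain ⟨α, hα, h4⟩ := h3
        exact Or.inr (Finset.mem_image.2 ⟨α, hα, by rw [eq_comm, ← add_eq_zero_iff_eq_neg]; exact h4⟩)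
    calc B.card ≤ (B' ∪ A.image (fun α => -α)).card := Finset.card_le_card h2
      _ ≤ B'.card + (A.image (fun α => -α)).card := Finset.card_union_le _ _
      _ ≤ B'.card + A.card := Nat.add_le_add_left Finset.card_image_le _
  set S : ZMod p → ℝ := fun x => ∑ T ∈ A.powersetCard r, (χ ((shiftPoly T).eval x) : ℝ) with hS
  have hSB : ∀ β ∈ B', S β = c := by
    intro β hβ
    rw [hB', Finset.mem_filter] at hβ
    have h3 : ∀ T ∈ A.powersetCard r, (χ ((shiftPoly T).eval β) : ℝ) = 1 := by
      intro T hT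
      rw [Finset.mem_powersetCard] at hT
      rw [shiftPoly_eval]
      have h4 : IsSquare (∏ α ∈ T, (β + α)) := by
        refine Finset.isSquare_prod _ fun α hα => ?_
        rw [add_comm]
        exact h α (hT.1 hα) β hβ.1
      have h5 : ∏ α ∈ T, (β + α) ≠ 0 := Finset.prod_ne_zero_iff.2 fun α hα => hβ.2 α (hT.1 hα)
      rw [hχ, (quadraticChar_one_iff_isSquare h5).2 h4]
      norm_num
    rw [hS]
    simp only
    rw [Finset.sum_congr rfl h3, Finset.sum_const, Finset.card_powersetCard]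
    simp [hc]
  have h5 : (c : ℝ) ^ 2 * B'.card ≤ ∑ x : ZMod p, S x ^ 2 := by
    calc (c : ℝ) ^ 2 * B'.card = ∑ x ∈ B', S x ^ 2 := by
          rw [Finset.sum_congr rfl fun x hx => by rw [hSB x hx], Finset.sum_const, nsmul_eq_mul, mul_comm]
      _ ≤ ∑ x : ZMod p, S x ^ 2 := Finset.sum_le_sum_of_subset_of_nonneg (Finset.subset_univ _) fun x _ _ => sq_nonneg _
  have h6 : ∑ x : ZMod p, S x ^ 2 = ∑ T ∈ A.powersetCard r, ∑ T' ∈ A.powersetCard r,
      ∑ x : ZMod p, (χ ((shiftPoly T * shiftPoly T').eval x) : ℝ) := by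
    have h7 : ∀ x : ZMod p, S x ^ 2 = ∑ T ∈ A.powersetCard r, ∑ T' ∈ A.powersetCard r,
        (χ ((shiftPoly T * shiftPoly T').eval x) : ℝ) := by
      intro x
      rw [sq, hS]
      simp only
      rw [Finset.sum_mul_sum]
      refine Finset.sum_congr rfl fun T _ => Finset.sum_congr rfl fun T' _ => ?_
      rw [eval_mul, map_mul]
      push_cast
      ring
    rw [Finset.sum_congr rfl fun x _ => h7 x, Finset.sum_comm]
    refine Finset.sum_congr rfl fun T _ => ?_
    rw [Finset.sum_comm]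
  have h8 : ∀ T ∈ A.powersetCard r, ∀ T' ∈ A.powersetCard r,
      ∑ x : ZMod p, (χ ((shiftPoly T * shiftPoly T').eval x) : ℝ) ≤ (if T = T' then (p : ℝ) else 0) + 82 * r * √p := by
    intro T hT T' hT'
    rw [Finset.mem_powersetCard] at hT hT'
    have h81 : (0 : ℝ) ≤ 82 * r * √p := by positivity
    by_cases hTT : T = T'
    · rw [if_pos hTT]
      have h9 : ∑ x : ZMod p, (χ ((shiftPoly T * shiftPoly T').eval x) : ℝ) ≤ ∑ x : ZMod p, (1 : ℝ) := by
        refine Finset.sum_le_sum fun x _ => ?_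
        rcases quadraticChar_isQuadratic (ZMod p) ((shiftPoly T * shiftPoly T').eval x) with h | h | h <;>
          rw [hχ, h] <;> norm_num
      rw [Finset.sum_const, Finset.card_univ, ZMod.card, nsmul_eq_mul, mul_one] at h9
      linarith
    · rw [if_neg hTT, zero_add]
      have h9 := Pool.Agent.FewConics.weil_nonsq p hp2 (shiftPoly T * shiftPoly T') (shiftPoly_mul_ne T T' hTT)
      have h10 : (shiftPoly T * shiftPoly T').natDegree = 2 * r := by
        rw [(shiftPoly_monic T).natDegree_mul (shiftPoly_monic T'), shiftPoly_natDegree, shiftPoly_natDegree, hT.2, hT'.2]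
        ring
      rw [h10] at h9
      refine (le_abs_self _).trans (h9.trans (le_of_eq ?_))
      push_cast
      ring
  have h11 : ∑ x : ZMod p, S x ^ 2 ≤ c * p + c ^ 2 * (82 * r * √p) := by
    rw [h6]
    calc ∑ T ∈ A.powersetCard r, ∑ T' ∈ A.powersetCard r, ∑ x : ZMod p, (χ ((shiftPoly T * shiftPoly T').eval x) : ℝ)
        ≤ ∑ T ∈ A.powersetCard r, ∑ T' ∈ A.powersetCard r, ((if T = T' then (p : ℝ) else 0) + 82 * r * √p) :=
          Finset.sum_le_sum fun T hT => Finset.sum_le_sum fun T' hT' => h8 T hT T' hT'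
      _ = ∑ T ∈ A.powersetCard r, ((p : ℝ) + c * (82 * r * √p)) := by
          refine Finset.sum_congr rfl fun T hT => ?_
          rw [Finset.sum_add_distrib, Finset.sum_ite_eq, if_pos hT, Finset.sum_const, Finset.card_powersetCard, nsmul_eq_mul]
      _ = c * p + c ^ 2 * (82 * r * √p) := by
          rw [Finset.sum_const, Finset.card_powersetCard, nsmul_eq_mul]
          ring
  have hc0 : (0 : ℝ) < c := by exact_mod_cast hcpos
  have h12 : (B'.card : ℝ) ≤ p / c + 82 * r * √p := by
    have h13 := h5.trans h11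
    rw [← sub_nonneg] at h13 ⊢
    have h14 : (p : ℝ) / c + 82 * r * √p - B'.card = (c * p + c ^ 2 * (82 * r * √p) - c ^ 2 * B'.card) / c ^ 2 := by
      field_simp
    rw [h14]
    positivity
  have h15 : (B.card : ℝ) ≤ B'.card + A.card := by exact_mod_cast h1
  linarith

end Pool.Agent.Lib_MP_bfde15
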