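import Mathlib
import Pool.Agent.Lib_MP_bfde15.SieveA

/-!
# A simple form of the larger sieve, and counting lemmas
-/

set_option autoImplicit false

namespace Pool.Agent.Lib_MP_bfde15

open Finset

/-- The sum of `log p` over a set of primes dividing `n ≥ 1` is at most `log n`. -/
theorem sum_log_primes_le (P : Finset ℕ) (hP : ∀ p ∈ P, p.Prime) (n : ℕ) (hn : 0 < n) (hd : ∀ p ∈ P, p ∣ n) :
    ∑ p ∈ P, Real.log p ≤ Real.log n := by
  have h1 : ∏ p ∈ P, p ∣ n := Finset.prod_primes_dvd n (fun p hp => (hP p hp).prime) hd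
  have h2 : ∏ p ∈ P, p ≤ n := Nat.le_of_dvd hn h1
  have h3 : ∑ p ∈ P, Real.log p = Real.log ((∏ p ∈ P, p : ℕ) : ℝ) := by
    push_cast
    rw [Real.log_prod]
    intro p hp
    exact_mod_cast (hP p hp).ne_zero
  rw [h3]
  apply Real.log_le_log
  · exact_mod_cast Finset.prod_pos fun p hp => (hP p hp).pos
  · exact_mod_cast h2

/-- The number of pairs of elements in the same fibre. -/
theorem card_sq_le_mul_pairs {α β : Type*} [DecidableEq α] [DecidableEq β] (A : Finset α) (f : α → β) :
    A.card ^ 2 ≤ (A.image f).card * ((A ×ˢ A).filter fun q => f q.1 = f q.2).card := by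
  have h1 : A.card = ∑ b ∈ A.image f, (A.filter fun a => f a = b).card :=
    Finset.card_eq_sum_card_image f A
  have h2 : ((A ×ˢ A).filter fun q => f q.1 = f q.2).card = ∑ b ∈ A.image f, (A.filter fun a => f a = b).card ^ 2 := by
    rw [Finset.card_eq_sum_card_fiberwise (f := fun q : α × α => f q.1) (t := A.image f)]
    · refine Finset.sum_congr rfl fun b _ => ?_
      rw [sq, ← Finset.card_product]
      congr 1
      ext q
      simp only [Finset.mem_filter, Finset.mem_product]
      constructor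
      · rintro ⟨⟨⟨h3, h4⟩, h5⟩, h6⟩
        exact ⟨⟨h3, h6⟩, ⟨h4, by rw [← h5]; exact h6⟩⟩
      · rintro ⟨⟨h3, h4⟩, ⟨h5, h6⟩⟩
        exact ⟨⟨⟨h3, h5⟩, by rw [h4, h6]⟩, h4⟩
    · intro q hq
      simp only [Finset.coe_filter, Finset.mem_product, Set.mem_ofPred_eq] at hq
      simpa using Finset.mem_image_of_mem f hq.1.1
  rw [h2, h1]
  have h3 := sq_sum_le_card_mul_sum_sq (s := A.image f) (f := fun b => (A.filter fun a => f a = b).card)
  exact h3

/-- **The larger sieve** (Gallagher), in a simple form: if `A` has at most `t` residues modulo every prime in `P`, and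
`2 t ≤ |A|`, then `∑ log p ≤ 2 t log N`. -/
theorem larger_sieve (A : Finset ℕ) (N t : ℕ) (hA : ∀ a ∈ A, a ≤ N) (P : Finset ℕ) (hP : ∀ p ∈ P, p.Prime)
    (ht : ∀ p ∈ P, (A.image fun a : ℕ => (a : ZMod p)).card ≤ t) (htA : 2 * t ≤ A.card) (ht1 : 1 ≤ t) :
    ∑ p ∈ P, Real.log p ≤ 2 * t * Real.log N := by
  classical
  have hlogN : 0 ≤ Real.log N := Real.log_natCast_nonneg N
  set k := A.card with hk
  have hk1 : 1 ≤ k := by omega
  set D := (A ×ˢ A).filter fun q => q.1 ≠ q.2 with hD
  have h1 : ∀ p ∈ P, (k : ℝ) ^ 2 / (2 * t) ≤ (D.filter fun q => ((q.1 : ℕ) : ZMod p) = q.2).card := by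
    intro p hp
    have h2 := card_sq_le_mul_pairs A (fun a : ℕ => (a : ZMod p))
    have h3 : ((A ×ˢ A).filter fun q => ((q.1 : ℕ) : ZMod p) = q.2).card ≤
        (D.filter fun q => ((q.1 : ℕ) : ZMod p) = q.2).card + k := by
      have h4 : (A ×ˢ A).filter (fun q => ((q.1 : ℕ) : ZMod p) = q.2) ⊆
          (D.filter fun q => ((q.1 : ℕ) : ZMod p) = q.2) ∪ A.image (fun a => (a, a)) := by
        intro q hq
        rw [Finset.mem_filter] at hq
        rw [Finset.mem_union]
        by_cases h5 : q.1 = q.2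
        · right
          rw [Finset.mem_image]
          exact ⟨q.1, (Finset.mem_product.1 hq.1).1, by ext <;> simp [h5]⟩
        · left
          rw [Finset.mem_filter, hD, Finset.mem_filter]
          exact ⟨⟨hq.1, h5⟩, hq.2⟩
      refine (Finset.card_le_card h4).trans ((Finset.card_union_le _ _).trans ?_)
      exact Nat.add_le_add_left (Finset.card_image_le) _
    have h5 : k ^ 2 ≤ t * ((D.filter fun q => ((q.1 : ℕ) : ZMod p) = q.2).card + k) :=
      h2.trans (Nat.mul_le_mul (ht p hp) h3)
    have h6 : (k : ℝ) ^ 2 ≤ t * ((D.filter fun q => ((q.1 : ℕ) : ZMod p) = q.2).card + k) := by exact_mod_cast h5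
    have ht0 : (0 : ℝ) < t := by exact_mod_cast ht1
    have h7 : (2 : ℝ) * t ≤ k := by exact_mod_cast htA
    rw [div_le_iff₀ (by positivity)]
    have h8 : (t : ℝ) * k * 2 ≤ (k : ℝ) ^ 2 := by nlinarith [(Nat.cast_nonneg k : (0 : ℝ) ≤ k)]
    nlinarith
  have h2 : ∑ p ∈ P, Real.log p * (D.filter fun q => ((q.1 : ℕ) : ZMod p) = q.2).card ≤ (k : ℝ) ^ 2 * Real.log N := by
    have h3 : ∀ p ∈ P, Real.log p * (D.filter fun q => ((q.1 : ℕ) : ZMod p) = q.2).card =
        ∑ q ∈ D, if ((q.1 : ℕ) : ZMod p) = q.2 then Real.log p else 0 := by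
      intro p _
      rw [← Finset.sum_filter, Finset.sum_const, nsmul_eq_mul, mul_comm]
    rw [Finset.sum_congr rfl h3, Finset.sum_comm]
    have h4 : ∀ q ∈ D, (∑ p ∈ P, if ((q.1 : ℕ) : ZMod p) = q.2 then Real.log p else 0) ≤ Real.log N := by
      intro q hq
      rw [hD, Finset.mem_filter, Finset.mem_product] at hq
      rw [← Finset.sum_filter]
      set n := (q.1 : ℤ) - q.2 with hn
      have h5 : 0 < n.natAbs := by
        rw [Int.natAbs_pos]
        intro h6
        apply hq.2
        omega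
      have h6 : n.natAbs ≤ N := by
        have := hA _ hq.1.1
        have := hA _ hq.1.2
        omega
      refine (sum_log_primes_le _ (fun p hp => hP p (Finset.mem_filter.1 hp).1) n.natAbs h5 ?_).trans ?_
      · intro p hp
        rw [Finset.mem_filter] at hp
        rw [← Int.natCast_dvd, ← ZMod.intCast_zmod_eq_zero_iff_dvd]
        · rw [hn]
          push_cast
          rw [hp.2, sub_self]
      · apply Real.log_le_log
        · exact_mod_cast h5
        · exact_mod_cast h6
    calc ∑ q ∈ D, (∑ p ∈ P, if ((q.1 : ℕ) : ZMod p) = q.2 then Real.log p else 0) ≤ ∑ q ∈ D, Real.log N :=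
          Finset.sum_le_sum h4
      _ = D.card * Real.log N := by rw [Finset.sum_const, nsmul_eq_mul]
      _ ≤ (k : ℝ) ^ 2 * Real.log N := by
          apply mul_le_mul_of_nonneg_right _ hlogN
          have h7 : D.card ≤ k ^ 2 := by
            refine (Finset.card_filter_le _ _).trans ?_
            rw [Finset.card_product, sq]
          exact_mod_cast h7
  have h3 : (k : ℝ) ^ 2 / (2 * t) * ∑ p ∈ P, Real.log p ≤ (k : ℝ) ^ 2 * Real.log N := by
    refine le_trans ?_ h2
    rw [Finset.mul_sum]
    refine Finset.sum_le_sum fun p hp => ?_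
    rw [mul_comm]
    exact mul_le_mul_of_nonneg_left (h1 p hp) (Real.log_natCast_nonneg p)
  have hk0 : (0 : ℝ) < (k : ℝ) ^ 2 := by
    have : (0 : ℝ) < k := by exact_mod_cast hk1
    positivity
  have ht0 : (0 : ℝ) < t := by exact_mod_cast ht1
  rw [div_mul_eq_mul_div, div_le_iff₀ (by positivity)] at h3
  have h4 : (k : ℝ) ^ 2 * ∑ p ∈ P, Real.log p ≤ (k : ℝ) ^ 2 * (2 * t * Real.log N) := by
    refine h3.trans (le_of_eq ?_)
    ring
  exact le_of_mul_le_mul_left h4 hk0

/-- A set of residues has at most twice as many elements as its set of squares. -/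
theorem card_le_two_mul_sq {p : ℕ} [Fact p.Prime] (A : Finset (ZMod p)) :
    A.card ≤ 2 * (A.image fun x => x ^ 2).card := by
  classical
  have h1 : ∀ b ∈ A.image (fun x => x ^ 2), (A.filter fun x => x ^ 2 = b).card ≤ 2 := by
    intro b hb
    rw [Finset.mem_image] at hb
    obtain ⟨a, _, rfl⟩ := hb
    have h2 : A.filter (fun x => x ^ 2 = a ^ 2) ⊆ {a, -a} := by
      intro x hx
      rw [Finset.mem_filter] at hx
      rw [Finset.mem_insert, Finset.mem_singleton]
      exact sq_eq_sq_iff_eq_or_eq_neg.1 hx.2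
    exact (Finset.card_le_card h2).trans Finset.card_le_two
  have := Finset.card_le_mul_card_image A 2 h1
  exact this

/-- `s ^ r ≤ C(r s, r)`. -/
theorem pow_le_choose_mul (r s : ℕ) : s ^ r ≤ (r * s).choose r := by
  induction r with
  | zero => simp
  | succ r ih =>
    have h1 : ((r + 1) * s).choose (r + 1) ≥ s * (r * s).choose r := by
      have h2 : (r + 1) * s = s + r * s := by ring
      rw [h2, Nat.add_choose_eq]
      have h3 : (1, r) ∈ Finset.HasAntidiagonal.antidiagonal (r + 1) := by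
        rw [Finset.HasAntidiagonal.mem_antidiagonal]
        ring
      have h4 := Finset.single_le_sum (f := fun ij : ℕ × ℕ => s.choose ij.1 * (r * s).choose ij.2)
        (fun ij _ => Nat.zero_le _) h3
      simpa using h4
    calc s ^ (r + 1) = s * s ^ r := by ring
      _ ≤ s * (r * s).choose r := Nat.mul_le_mul_left _ ih
      _ ≤ ((r + 1) * s).choose (r + 1) := h1

end Pool.Agent.Lib_MP_bfde15
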