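import Mathlib
import Pool.Agent.Lib_MP_bfde15.SieveB
import Pool.Agent.Lib_MP_bfde15.Det

/-!
# The trade-off between the sizes of mutually Pythagorean sets
-/

set_option autoImplicit false

namespace Pool.Agent.Lib_MP_bfde15

open Finset

/-- Chebyshev's lower bound for squares `q ^ 2 ≥ 6400 ^ 2`. -/
theorem theta_sq_ge (q : ℕ) (hq : 6400 ≤ q) : (q : ℝ) ^ 2 / 2 ≤ Chebyshev.theta ((q ^ 2 : ℕ) : ℝ) := by
  have h1 := Chebyshev.theta_ge (q ^ 2)
  have hq' : (6400 : ℝ) ≤ q := by exact_mod_cast hq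
  have hq0 : (0 : ℝ) < q := by linarith
  have h2 : √(((q ^ 2 : ℕ) : ℝ)) = q := by
    push_cast
    exact Real.sqrt_sq hq0.le
  have h3 : Real.log (((q ^ 2 : ℕ) : ℝ)) = 2 * Real.log q := by
    push_cast
    rw [Real.log_pow]
    norm_num
  set w := √(q : ℝ) with hw
  have hw2 : w ^ 2 = q := Real.sq_sqrt hq0.le
  have hw0 : 0 ≤ w := Real.sqrt_nonneg _
  have hw80 : 80 ≤ w := by
    rw [hw]
    apply Real.le_sqrt_of_sq_le
    norm_num
    exact hq
  have h4 : Real.log q ≤ 2 * w := by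
    have h5 : Real.log q = 2 * Real.log w := by
      rw [← hw2, Real.log_pow]
      norm_num
    have h6 := Real.log_le_sub_one_of_pos (show 0 < w by linarith)
    rw [h5]
    linarith
  have h7 : Real.log (((q ^ 2 : ℕ) : ℝ) + 1) ≤ 1 + 4 * w := by
    have h8 : Real.log (((q ^ 2 : ℕ) : ℝ) + 1) ≤ Real.log (2 * (q : ℝ) ^ 2) := by
      apply Real.log_le_log
      · positivity
      · push_cast
        nlinarith
    rw [Real.log_mul (by norm_num) (by positivity), Real.log_pow] at h8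
    have h9 : Real.log 2 ≤ 1 := by
      have := Real.log_two_lt_d9
      linarith
    push_cast at h8 ⊢
    linarith
  have h10 := Real.log_two_gt_d9
  rw [h2, h3] at h1
  have h11 : (q : ℝ) * w ≤ (q : ℝ) ^ 2 / 80 := by
    have : (80 : ℝ) * ((q : ℝ) * w) ≤ (q : ℝ) ^ 2 := by
      have h12 : (q : ℝ) ^ 2 = (q * w) * w := by
        rw [← hw2]
        ring
      rw [h12]
      have : 0 ≤ (q : ℝ) * w := by positivity
      nlinarith
    linarith
  have h13 : 1 + 4 * w ≤ (q : ℝ) ^ 2 / 100 := by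
    have h14 : w ≤ q := by nlinarith
    nlinarith
  have h15 : 2 * (q : ℝ) * (2 * Real.log q) ≤ (q : ℝ) ^ 2 / 10 := by nlinarith
  push_cast at h1 ⊢
  push_cast at h7
  nlinarith

/-- The number of residues of `B` if `A` has many. -/
theorem card_image_le (X Y : Set ℕ) (h : MPyth X Y) (A B : Finset ℕ) (hA : (A : Set ℕ) ⊆ X) (hB : (B : Set ℕ) ⊆ Y)
    (p q r s : ℕ) (hp : p.Prime) (hp2 : p ≠ 2) (hpq : p ≤ q ^ 2) (hq : 1 ≤ q) (hr : 1 ≤ r) (hs : 1 ≤ s) (hsq : q ≤ s ^ r)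
    (hs11 : s ≤ 11 * q) (hAp : 2 * (r * s) < (A.image fun a : ℕ => (a : ZMod p)).card) :
    (B.image fun a : ℕ => (a : ZMod p)).card ≤ 188 * r * q := by
  classical
  have := Fact.mk hp
  set A1 := A.image fun a : ℕ => (a : ZMod p) with hA1
  set B1 := B.image fun a : ℕ => (a : ZMod p) with hB1
  have h1 := card_le_two_mul_sq A1
  have h2 := card_le_two_mul_sq B1
  obtain ⟨A', hA', hA'c⟩ := Finset.exists_subset_card_eq (s := A1.image fun x => x ^ 2) (n := r * s) (by omega)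
  have h3 : ∀ α ∈ A', ∀ β ∈ B1.image (fun x => x ^ 2), IsSquare (α + β) := by
    intro α hα β hβ
    have h4 := hA' hα
    rw [Finset.mem_image] at h4 hβ
    obtain ⟨α1, hα1, rfl⟩ := h4
    obtain ⟨β1, hβ1, rfl⟩ := hβ
    rw [hA1, Finset.mem_image] at hα1
    rw [hB1, Finset.mem_image] at hβ1
    obtain ⟨x, hx, rfl⟩ := hα1
    obtain ⟨y, hy, rfl⟩ := hβ1
    obtain ⟨z, hz⟩ := h.2.2 x (hA hx) y (hB hy)
    refine ⟨(z : ZMod p), ?_⟩
    have h5 : ((x ^ 2 + y ^ 2 : ℕ) : ZMod p) = ((z * z : ℕ) : ZMod p) := by rw [hz]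
    push_cast at h5
    exact h5
  have h4 := card_le_of_isSquare_add p hp2 A' (B1.image fun x => x ^ 2) r (by
    rw [hA'c]
    exact Nat.le_mul_of_pos_right _ hs) h3
  rw [hA'c] at h4
  have h5 : q ≤ (r * s).choose r := hsq.trans (pow_le_choose_mul r s)
  have hq0 : (0 : ℝ) < q := by exact_mod_cast hq
  have hpq' : (p : ℝ) ≤ (q : ℝ) ^ 2 := by exact_mod_cast hpq
  have h6 : (p : ℝ) / ((r * s).choose r : ℝ) ≤ q := by
    have h7 : (q : ℝ) ≤ ((r * s).choose r : ℝ) := by exact_mod_cast h5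
    rw [div_le_iff₀ (lt_of_lt_of_le hq0 h7)]
    nlinarith
  have h8 : √(p : ℝ) ≤ q := by
    rw [Real.sqrt_le_left hq0.le]
    exact hpq'
  have hr' : (1 : ℝ) ≤ r := by exact_mod_cast hr
  have hs' : (s : ℝ) ≤ 11 * q := by exact_mod_cast hs11
  have h9 : ((B1.image fun x => x ^ 2).card : ℝ) ≤ 94 * r * q := by
    push_cast at h4
    have h10 : (r : ℝ) * s ≤ r * (11 * q) := mul_le_mul_of_nonneg_left hs' (by linarith)
    have h11 : 82 * (r : ℝ) * √(p : ℝ) ≤ 82 * r * q := mul_le_mul_of_nonneg_left h8 (by positivity)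
    have h12 : (q : ℝ) ≤ r * q := by nlinarith
    nlinarith
  have h13 : (B1.image fun x => x ^ 2).card ≤ 94 * r * q := by exact_mod_cast h9
  calc B1.card ≤ 2 * (B1.image fun x => x ^ 2).card := h2
    _ ≤ 2 * (94 * r * q) := Nat.mul_le_mul_left _ h13
    _ = 188 * r * q := by ring

/-- The core of the trade-off. -/
theorem tradeoff_core (X Y : Set ℕ) (h : MPyth X Y) (A B : Finset ℕ) (hA : (A : Set ℕ) ⊆ X) (hB : (B : Set ℕ) ⊆ Y)
    (N q r s : ℕ) (hAN : ∀ a ∈ A, a ≤ N) (hBN : ∀ b ∈ B, b ≤ N) (hq : 6400 ≤ q) (hr : 1 ≤ r) (hs : 1 ≤ s)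
    (hsq : q ≤ s ^ r) (hs11 : s ≤ 11 * q) (hL : 2500 * r * Real.log N ≤ q) (hAc : 4 * (r * s) ≤ A.card)
    (hBc : 376 * r * q ≤ B.card) : False := by
  classical
  set P := (Nat.primesLE (q ^ 2)).filter fun p => p ≠ 2 with hP
  set P1 := P.filter fun p => (A.image fun a : ℕ => (a : ZMod p)).card ≤ 2 * (r * s) with hP1
  set P2 := P.filter fun p => ¬ (A.image fun a : ℕ => (a : ZMod p)).card ≤ 2 * (r * s) with hP2
  have hprime : ∀ p ∈ P, p.Prime ∧ p ≤ q ^ 2 ∧ p ≠ 2 := by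
    intro p hp
    rw [hP, Finset.mem_filter, Nat.primesLE_eq_filter_range, Finset.mem_filter, Finset.mem_range] at hp
    exact ⟨hp.1.2, by omega, hp.2⟩
  have hlogN : 0 ≤ Real.log N := Real.log_natCast_nonneg N
  have hq' : (6400 : ℝ) ≤ q := by exact_mod_cast hq
  have hr' : (1 : ℝ) ≤ r := by exact_mod_cast hr
  have hs' : (s : ℝ) ≤ 11 * q := by exact_mod_cast hs11
  have h1 : ∑ p ∈ P, Real.log p = ∑ p ∈ P1, Real.log p + ∑ p ∈ P2, Real.log p :=
    (Finset.sum_filter_add_sum_filter_not P _ _).symm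
  have h2 : Chebyshev.theta ((q ^ 2 : ℕ) : ℝ) ≤ ∑ p ∈ P, Real.log p + 1 := by
    rw [Chebyshev.theta_eq_sum_primesLE_log, ← Finset.sum_filter_add_sum_filter_not (Nat.primesLE (q ^ 2)) (fun p => p ≠ 2)]
    have h3 : ∑ p ∈ (Nat.primesLE (q ^ 2)).filter (fun p => ¬ p ≠ 2), Real.log p ≤ 1 := by
      have h4 : (Nat.primesLE (q ^ 2)).filter (fun p => ¬ p ≠ 2) ⊆ {2} := by
        intro p hp
        rw [Finset.mem_filter] at hp
        rw [Finset.mem_singleton]
        exact not_not.1 hp.2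
      calc ∑ p ∈ (Nat.primesLE (q ^ 2)).filter (fun p => ¬ p ≠ 2), Real.log p ≤ ∑ p ∈ ({2} : Finset ℕ), Real.log p :=
            Finset.sum_le_sum_of_subset_of_nonneg h4 fun p _ _ => Real.log_natCast_nonneg p
        _ = Real.log 2 := by simp
        _ ≤ 1 := by
            have := Real.log_two_lt_d9
            linarith
    linarith
  have h3 := theta_sq_ge q hq
  have h4 : ∑ p ∈ P1, Real.log p ≤ 2 * ((2 * (r * s) : ℕ) : ℝ) * Real.log N :=
    larger_sieve A N (2 * (r * s)) hAN P1 (fun p hp => (hprime p (Finset.mem_filter.1 hp).1).1)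
      (fun p hp => (Finset.mem_filter.1 hp).2) (by omega) (by
        have : 1 ≤ r * s := Nat.mul_pos hr hs
        omega)
  have h5 : ∑ p ∈ P2, Real.log p ≤ 2 * ((188 * r * q : ℕ) : ℝ) * Real.log N := by
    refine larger_sieve B N (188 * r * q) hBN P2 (fun p hp => (hprime p (Finset.mem_filter.1 hp).1).1) ?_ (by
      refine le_trans (le_of_eq ?_) hBc
      ring) (by
        have : 1 ≤ r * q := Nat.mul_pos hr (by omega)
        nlinarith)
    intro p hp
    rw [hP2, Finset.mem_filter] at hp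
    obtain ⟨h6, h7, h8⟩ := hprime p hp.1
    exact card_image_le X Y h A B hA hB p q r s h6 h8 h7 (by omega) hr hs hsq hs11 (not_le.1 hp.2)
  push_cast at h4 h5
  have h6 : (r : ℝ) * s * Real.log N ≤ 11 * (q * (r * Real.log N)) := by
    have h7 : (r : ℝ) * Real.log N * s ≤ r * Real.log N * (11 * q) := mul_le_mul_of_nonneg_left hs' (by positivity)
    nlinarith
  have h7 : (q : ℝ) * (r * Real.log N) ≤ (q : ℝ) ^ 2 / 2500 := by
    have h8 : (r : ℝ) * Real.log N ≤ q / 2500 := by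
      rw [le_div_iff₀ (by norm_num)]
      linarith
    have h9 := mul_le_mul_of_nonneg_left h8 (show (0 : ℝ) ≤ q by linarith)
    refine h9.trans (le_of_eq ?_)
    ring
  have h8 : ∑ p ∈ P, Real.log p ≤ 420 * ((q : ℝ) ^ 2 / 2500) := by
    rw [h1]
    nlinarith
  nlinarith

/-- **The trade-off.** -/
theorem tradeoff (X Y : Set ℕ) (h : MPyth X Y) (m : ℕ) (hm : m ∈ X ∪ Y) (r : ℕ) (hr : 1 ≤ r) (A B : Finset ℕ)
    (hA : (A : Set ℕ) ⊆ X) (hB : (B : Set ℕ) ⊆ Y) :
    (A.card : ℝ) ≤ 10 ^ 7 * r * Real.log m ^ (1 / (r : ℝ)) ∨ (B.card : ℝ) ≤ 10 ^ 7 * r ^ 2 * Real.log m := by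
  by_contra hcon
  rw [not_or, not_le, not_le] at hcon
  obtain ⟨hA1, hB1⟩ := hcon
  have hlog0 : 0 ≤ Real.log m := Real.log_natCast_nonneg m
  have hr' : (1 : ℝ) ≤ r := by exact_mod_cast hr
  have hr0 : (0 : ℝ) < r := by linarith
  obtain ⟨z, hz⟩ : ∃ z, z = Real.log m ^ (1 / (r : ℝ)) := ⟨_, rfl⟩
  rw [← hz] at hA1
  have hz0 : 0 ≤ z := by
    rw [hz]
    exact Real.rpow_nonneg hlog0 _
  have hzr : z ^ r = Real.log m := by
    rw [hz, ← Real.rpow_natCast, ← Real.rpow_mul hlog0, one_div_mul_cancel hr0.ne', Real.rpow_one]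
  have hAne : 0 < A.card := by
    have : (0 : ℝ) < A.card := lt_of_le_of_lt (by positivity) hA1
    exact_mod_cast this
  have hBne : 0 < B.card := by
    have : (0 : ℝ) < B.card := lt_of_le_of_lt (by positivity) hB1
    exact_mod_cast this
  obtain ⟨x0, hx0⟩ := Finset.card_pos.1 hAne
  obtain ⟨y0, hy0⟩ := Finset.card_pos.1 hBne
  have hm0 : 0 < m := by
    rcases hm with hm | hm
    · exact h.1 m hm
    · exact h.2.1 m hm
  have hm2 : 2 ≤ m := by
    rcases hm with hm | hm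
    · have h1 := lt_sq h hm (hB hy0)
      have h2 := h.2.1 _ (hB hy0)
      by_contra hc
      have : m = 1 := by omega
      rw [this] at h1
      omega
    · have h1 := lt_sq h.symm hm (hA hx0)
      have h2 := h.1 _ (hA hx0)
      by_contra hc
      have : m = 1 := by omega
      rw [this] at h1
      omega
  have hAm : ∀ x ∈ A, x ≤ m ^ 4 := by
    intro x hx
    rcases hm with hm | hm
    · have h1 := lt_sq h hm (hB hy0)
      have h2 := lt_sq h.symm (hB hy0) (hA hx)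
      calc x ≤ y0 ^ 2 := h2.le
        _ ≤ (m ^ 2) ^ 2 := Nat.pow_le_pow_left h1.le 2
        _ = m ^ 4 := by rw [← pow_mul]
    · have h2 := lt_sq h.symm hm (hA hx)
      exact h2.le.trans (Nat.pow_le_pow_right hm0 (by norm_num))
  have hBm : ∀ x ∈ B, x ≤ m ^ 4 := by
    intro x hx
    rcases hm with hm | hm
    · have h2 := lt_sq h hm (hB hx)
      exact h2.le.trans (Nat.pow_le_pow_right hm0 (by norm_num))
    · have h1 := lt_sq h.symm hm (hA hx0)
      have h2 := lt_sq h (hA hx0) (hB hx)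
      calc x ≤ x0 ^ 2 := h2.le
        _ ≤ (m ^ 2) ^ 2 := Nat.pow_le_pow_left h1.le 2
        _ = m ^ 4 := by rw [← pow_mul]
  have hlog : 0.69 ≤ Real.log m := by
    have h1 : Real.log 2 ≤ Real.log m := Real.log_le_log (by norm_num) (by exact_mod_cast hm2)
    have h2 := Real.log_two_gt_d9
    linarith
  have hrl : Real.log m ≤ r * Real.log m := by nlinarith
  have hlogN : Real.log ((m ^ 4 : ℕ) : ℝ) = 4 * Real.log m := by
    push_cast
    rw [Real.log_pow]
    norm_num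
  have hz2 : 1 / 2 ≤ z := by
    by_contra hc
    rw [not_le] at hc
    have h1 : z ^ r ≤ z := pow_le_of_le_one hz0 (by linarith) (by omega)
    linarith
  have hz3 : z ≤ 1 + Real.log m := by
    by_cases hc : z ≤ 1
    · linarith
    · rw [not_le] at hc
      have h1 : z ≤ z ^ r := le_self_pow₀ hc.le (by omega)
      linarith
  set q := ⌈10 ^ 4 * (r * Real.log m)⌉₊ with hq
  set s := ⌈4 * 10 ^ 4 * z⌉₊ with hs
  have hq1 : 10 ^ 4 * (r * Real.log m) ≤ q := Nat.le_ceil _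
  have hq2 : (q : ℝ) < 10 ^ 4 * (r * Real.log m) + 1 := Nat.ceil_lt_add_one (by positivity)
  have hs1 : 4 * 10 ^ 4 * z ≤ s := Nat.le_ceil _
  have hs2 : (s : ℝ) < 4 * 10 ^ 4 * z + 1 := Nat.ceil_lt_add_one (by positivity)
  have hq3 : 6400 ≤ q := by
    have : (6400 : ℝ) ≤ q := by linarith
    exact_mod_cast this
  have hs3 : 1 ≤ s := by
    have : (1 : ℝ) ≤ s := by linarith
    exact_mod_cast this
  have h4 : (2 : ℝ) * r ≤ 4 ^ r := by
    have h5 : (r : ℝ) ≤ 2 ^ r := by exact_mod_cast (Nat.lt_two_pow_self (n := r)).le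
    have h6 : (2 : ℝ) ≤ 2 ^ r := by
      calc (2 : ℝ) = 2 ^ 1 := by norm_num
        _ ≤ 2 ^ r := pow_le_pow_right₀ (by norm_num) hr
    calc (2 : ℝ) * r ≤ 2 ^ r * 2 ^ r := mul_le_mul h6 h5 hr0.le (by positivity)
      _ = 4 ^ r := by rw [← mul_pow]; norm_num
  have hsq : q ≤ s ^ r := by
    have h5 : (4 * 10 ^ 4 * z) ^ r ≤ (s : ℝ) ^ r := pow_le_pow_left₀ (by positivity) hs1 r
    have h6 : (4 * 10 ^ 4 * z) ^ r = 4 ^ r * (10 ^ 4) ^ r * Real.log m := by
      rw [mul_pow, mul_pow, hzr]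
    have h7 : (10 : ℝ) ^ 4 ≤ (10 ^ 4) ^ r := le_self_pow₀ (by norm_num) (by omega)
    have h8 : 2 * r * 10 ^ 4 ≤ (4 : ℝ) ^ r * (10 ^ 4) ^ r := mul_le_mul h4 h7 (by positivity) (by positivity)
    have h9 : 2 * r * 10 ^ 4 * Real.log m ≤ (s : ℝ) ^ r := by
      refine le_trans ?_ h5
      rw [h6]
      exact mul_le_mul_of_nonneg_right h8 hlog0
    have h10 : (q : ℝ) ≤ (s : ℝ) ^ r := by
      have h11 : 1 ≤ r * Real.log m * 10 ^ 4 := by nlinarith
      nlinarith
    exact_mod_cast h10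
  have hs11 : s ≤ 11 * q := by
    have h5 : (s : ℝ) ≤ 11 * q := by nlinarith
    exact_mod_cast h5
  have hL : 2500 * r * Real.log ((m ^ 4 : ℕ) : ℝ) ≤ q := by
    rw [hlogN]
    linarith
  have hAc : 4 * (r * s) ≤ A.card := by
    have h5 : (4 : ℝ) * (r * s) ≤ A.card := by
      refine le_trans ?_ hA1.le
      have h6 : (s : ℝ) ≤ (4 * 10 ^ 4 + 2) * z := by linarith
      have h7 : (r : ℝ) * s ≤ r * ((4 * 10 ^ 4 + 2) * z) := mul_le_mul_of_nonneg_left h6 hr0.le
      have h8 : 0 ≤ (r : ℝ) * z := by positivity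
      nlinarith
    exact_mod_cast h5
  have hBc : 376 * r * q ≤ B.card := by
    have h5 : (376 : ℝ) * r * q ≤ B.card := by
      refine le_trans ?_ hB1.le
      have h6 : (q : ℝ) ≤ 2 * 10 ^ 4 * (r * Real.log m) := by nlinarith
      have h7 : (r : ℝ) * q ≤ r * (2 * 10 ^ 4 * (r * Real.log m)) := mul_le_mul_of_nonneg_left h6 hr0.le
      have h8 : 0 ≤ (r : ℝ) ^ 2 * Real.log m := by positivity
      nlinarith
    exact_mod_cast h5
  exact tradeoff_core X Y h A B hA hB (m ^ 4) q r s hAm hBm hq3 hr hs3 hsq hs11 hL hAc hBc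

end Pool.Agent.Lib_MP_bfde15
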